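import Pool.Agent.R54.AS.Grow
import Pool.Agent.H739K.F4
import Pool.Agent.H739K.BND
import Pool.Agent.H739K.RATIO

/-!
# Smoothness of the area law of self-avoiding polygons: assembly
-/

set_option autoImplicit false
set_option linter.unusedVariables false

namespace Pool.Agent.R54.AS

open Finset Pool.Agent.H976R2 Pool.Agent.H976R2.Lip Pool.Agent.H924P Pool.Agent.H739K
open scoped Classical

noncomputable section

namespace Fin

lemma exp_pow_bound (K : ℝ) (hK : 0 ≤ K) (r : ℝ) (hr0 : 0 < r) (hr1 : r < 1) : ∃ B : ℝ, 0 < B ∧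
    ∀ n : ℕ, 1 ≤ n → r ^ n * Real.exp (K * (Real.log n) ^ 9) ≤ B := by
  obtain ⟨B, hB0, hB⟩ := RATIO.bounded K hK r hr0 hr1
  refine ⟨B, hB0, fun n hn => le_trans ?_ (hB n)⟩
  have h1 : (1 : ℝ) ≤ (n : ℝ) ^ 4 := one_le_pow₀ (by exact_mod_cast hn)
  rw [mul_assoc]
  exact le_mul_of_one_le_left (by positivity) h1

/-- polygons with few free corners are exponentially rare -/
theorem few_exp : ∃ C c : ℝ, 0 < C ∧ 0 < c ∧ ∀ n : ℕ, 3 ≤ n → n % 2 = 1 →
    ((fewc n).card : ℝ) ≤ C * Real.exp (- (c * n)) * ((KP n).card : ℝ) := by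
  obtain ⟨C, hC, h1⟩ := fewc_card
  obtain ⟨hmu, K, hK, h2⟩ := BND_proof CONV_proof
  have hr0 : (0 : ℝ) < 2.4 / 2.42 := by norm_num
  have hr1 : (2.4 / 2.42 : ℝ) < 1 := by norm_num
  have hs0 : (0 : ℝ) < 2.42 / 2.43 := by norm_num
  have hs1 : (2.42 / 2.43 : ℝ) < 1 := by norm_num
  obtain ⟨B, hB0, hB⟩ := exp_pow_bound K hK (2.42 / 2.43) hs0 hs1
  refine ⟨C * B, - Real.log (2.4 / 2.42), by positivity, ?_, fun n hn hodd => ?_⟩
  · have := Real.log_neg hr0 hr1; linarith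
  have h3 := h1 n
  have h4 := (h2 n hn hodd).1
  have h5 := hB n (by omega)
  have hmu0 : 0 < H981.mu := by linarith
  have h7 : (2.43 : ℝ) ^ n ≤ H981.mu ^ n := pow_le_pow_left₀ (by norm_num) hmu n
  have h8 : Real.exp (-(- Real.log (2.4 / 2.42) * n)) = (2.4 / 2.42 : ℝ) ^ n := by
    rw [neg_mul, neg_neg, mul_comm, ← Real.log_pow, Real.exp_log (by positivity)]
  rw [h8]
  have h9 : (2.42 : ℝ) ^ n ≤ B * ((KP n).card : ℝ) := by
    rw [div_pow] at h5
    have e : ((2.42 : ℝ) ^ n / 2.43 ^ n) * Real.exp (K * (Real.log n) ^ 9) =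
        2.42 ^ n / (2.43 ^ n * Real.exp (-(K * (Real.log n) ^ 9))) := by
      rw [Real.exp_neg]; field_simp
    rw [e, div_le_iff₀ (by positivity)] at h5
    refine h5.trans ?_
    gcongr
    refine le_trans ?_ h4
    gcongr
  calc ((fewc n).card : ℝ) ≤ C * 2.4 ^ n := h3
    _ = C * (2.4 / 2.42) ^ n * 2.42 ^ n := by rw [div_pow]; field_simp
    _ ≤ C * (2.4 / 2.42) ^ n * (B * ((KP n).card : ℝ)) := by gcongr
    _ = _ := by ring

/-- the proportion of the polygons with few free corners is at most `C / √N` -/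
theorem few_sqrt : ∃ C : ℝ, 0 < C ∧ ∀ N : ℕ, 2 ≤ N →
    ((fewc (2 * N - 1)).card : ℝ) ≤ C / Real.sqrt N * ((KP (2 * N - 1)).card : ℝ) := by
  obtain ⟨C, c, hC, hc, h⟩ := few_exp
  refine ⟨C * (1 + 1 / c), by positivity, fun N hN => ?_⟩
  have hNr : (2 : ℝ) ≤ N := by exact_mod_cast hN
  refine (h (2 * N - 1) (by omega) (by omega)).trans ?_
  apply mul_le_mul_of_nonneg_right _ (by positivity)
  have hcast : ((2 * N - 1 : ℕ) : ℝ) = 2 * N - 1 := by
    rw [Nat.cast_sub (by omega)]; push_cast; ring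
  rw [hcast]
  have hsq : Real.sqrt N ≤ N := by
    rw [Real.sqrt_le_left (by linarith)]; nlinarith
  have hsq0 : 0 < Real.sqrt N := Real.sqrt_pos.mpr (by linarith)
  have h1 : Real.exp (-(c * (2 * N - 1))) ≤ Real.exp (-(c * N)) := by
    apply Real.exp_le_exp.mpr
    nlinarith
  have h2 : Real.exp (-(c * N)) ≤ (1 / c) / N := by
    rw [Real.exp_neg, le_div_iff₀ (by linarith), inv_mul_le_iff₀ (Real.exp_pos _)]
    have h3 := Real.add_one_le_exp (c * N)
    rw [mul_one_div, le_div_iff₀ hc]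
    nlinarith
  calc C * Real.exp (-(c * (2 * N - 1))) ≤ C * ((1 / c) / N) := by
        apply mul_le_mul_of_nonneg_left (h1.trans h2) hC.le
    _ ≤ C * ((1 + 1 / c) / Real.sqrt N) := by
        apply mul_le_mul_of_nonneg_left _ hC.le
        calc (1 / c) / (N : ℝ) ≤ (1 / c) / Real.sqrt N := by gcongr
          _ ≤ (1 + 1 / c) / Real.sqrt N := by gcongr; linarith
    _ = _ := by ring

lemma card_pos {N : ℕ} (hN : 2 ≤ N) : (0 : ℝ) < ((KP (2 * N - 1)).card : ℝ) := by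
  obtain ⟨hmu, K, hK, h2⟩ := BND_proof CONV_proof
  have := (h2 (2 * N - 1) (by omega) (by omega)).1
  have hmu0 : 0 < H981.mu := by linarith
  exact lt_of_lt_of_le (by positivity) this

lemma mem_KP {n : ℕ} {w : List Dir} : w ∈ KP n ↔ w.length = n ∧ Saw w ∧ sq w = 1 := by
  unfold KP
  rw [Finset.mem_filter, mem_SW]
  tauto

lemma lp_close (hf : S_flip) {N : ℕ} (hN : 2 ≤ N) {w : List Dir} (hw : w ∈ KP (2 * N - 1))
    {i : ℕ} (hi : i ∈ fc w) :
    ∃ k : ZMod (2 * N), ∀ j, j ≠ k → lp (2 * N) (sw w i) j = lp (2 * N) w j := by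
  obtain ⟨hl, hs, hq⟩ := mem_KP.mp hw
  obtain ⟨_, _, _, _, _, hP, _⟩ := hf w hs i hi
  have : NeZero (2 * N) := ⟨by omega⟩
  refine ⟨((i + 1 : ℕ) : ZMod (2 * N)), fun j hj => ?_⟩
  have h1 : j.val ≠ i + 1 := by
    intro h
    apply hj
    rw [← h, ZMod.natCast_zmod_val]
  exact hP j.val h1

/-- the smoothing estimate for words -/
theorem words (hf : S_flip) (ha : S_ar) (habs : S_abs) : ∃ C : ℝ, 0 < C ∧ ∀ N : ℕ, 2 ≤ N →
    ∀ (g : ℤ → ℝ) (F : (ZMod (2 * N) → ℤ × ℤ) → ℝ) (δ : ℝ), 0 ≤ δ → (∀ a, |g a| ≤ 1) →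
    (∀ f, IsLoop (2 * N) f → |F f| ≤ 1) →
    (∀ f f' : ZMod (2 * N) → ℤ × ℤ, IsLoop (2 * N) f → IsLoop (2 * N) f' →
      (∃ k, ∀ j, j ≠ k → f j = f' j) → |F f - F f'| ≤ δ) →
    |∑ w ∈ KP (2 * N - 1), F (lp (2 * N) w) * (g ((ar w : ℤ) + 1) - g (ar w))| ≤
      ((KP (2 * N - 1)).card : ℝ) * (C * (δ + 1 / Real.sqrt N)) := by
  obtain ⟨C, hC, hfew⟩ := few_sqrt
  refine ⟨1100 + 4 * C, by positivity, fun N hN g F δ hδ hg hF hFδ => ?_⟩
  have hNr : (2 : ℝ) ≤ N := by exact_mod_cast hN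
  have hlen : ∀ w ∈ KP (2 * N - 1), 3 ≤ w.length := fun w hw => by
    have := (mem_KP.mp hw).1; omega
  have hloop : ∀ w ∈ KP (2 * N - 1), IsLoop (2 * N) (lp (2 * N) w) := (CONV_proof N hN).2.2
  have hmem : ∀ w ∈ KP (2 * N - 1), ∀ i ∈ fc w, sw w i ∈ KP (2 * N - 1) := fun w hw i hi => by
    obtain ⟨hl, hs, hq⟩ := mem_KP.mp hw
    obtain ⟨h1, h2, h3, _⟩ := hf w hs i hi
    exact mem_KP.mpr ⟨by rw [h1, hl], h2, by rw [h3, hq]⟩
  have key := habs (List Dir) (KP (2 * N - 1)) fc sw nr (fun w => (ar w : ℤ))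
    (fun w => F (lp (2 * N) w)) g (2 * N - 1) 7 (1 / 50) δ (by omega) (by norm_num) hδ
    (fun w hw => by
      have h1 : (fc w).card ≤ w.length := by
        unfold fc
        exact (Finset.card_filter_le _ _).trans (by rw [Finset.card_range])
      rw [(mem_KP.mp hw).1] at h1
      exact h1)
    (fun w hw i hi => by
      obtain ⟨hl, hs, hq⟩ := mem_KP.mp hw
      obtain ⟨_, _, _, h4, h5, _⟩ := hf w hs i hi
      exact ⟨hmem w hw i hi, h4, h5⟩)
    (fun w hw i hi => by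
      obtain ⟨hl, hs, hq⟩ := mem_KP.mp hw
      obtain ⟨_, _, _, _, _, _, h7, h8, h9, _⟩ := hf w hs i hi
      exact ⟨h7, h8, h9⟩)
    (fun w hw i hi j hj hjn => by
      obtain ⟨hl, hs, hq⟩ := mem_KP.mp hw
      obtain ⟨_, _, _, _, _, _, _, _, _, h10⟩ := hf w hs i hi
      exact h10 j hj hjn)
    (fun w hw i hi => by
      obtain ⟨hl, hs, hq⟩ := mem_KP.mp hw
      have h := (ha w (hlen w hw) hs hq i hi).1
      unfold sg at h
      rcases h with h | h
      · left; show (ar (sw w i) : ℤ) = ar w + 1; linarith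
      · right; show (ar (sw w i) : ℤ) = ar w - 1; linarith)
    (fun w hw i hi j hj hjn => by
      obtain ⟨hl, hs, hq⟩ := mem_KP.mp hw
      have h := (ha w (hlen w hw) hs hq i hi).2 j hj hjn
      unfold sg at h
      exact h)
    (fun w hw => hF _ (hloop w hw))
    (fun w hw i hi => hFδ _ _ (hloop _ (hmem w hw i hi)) (hloop w hw) (lp_close hf hN hw hi))
    hg
  refine key.trans ?_
  have hfl : ((KP (2 * N - 1)).filter (fun w => ((fc w).card : ℝ) < 1 / 50 * ((2 * N - 1 : ℕ) : ℝ))) ⊆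
      fewc (2 * N - 1) := by
    intro w hw
    rw [Finset.mem_filter] at hw
    unfold fewc
    rw [Finset.mem_filter]
    refine ⟨(Finset.mem_filter.mp hw.1).1, ?_⟩
    have := hw.2
    linarith
  have h1 : (((KP (2 * N - 1)).filter (fun w => ((fc w).card : ℝ) < 1 / 50 * ((2 * N - 1 : ℕ) : ℝ))).card : ℝ) ≤
      C / Real.sqrt N * ((KP (2 * N - 1)).card : ℝ) :=
    le_trans (by exact_mod_cast Finset.card_le_card hfl) (hfew N hN)
  have hcast : ((2 * N - 1 : ℕ) : ℝ) = 2 * N - 1 := by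
    rw [Nat.cast_sub (by omega)]; push_cast; ring
  have hge : (N : ℝ) ≤ ((2 * N - 1 : ℕ) : ℝ) := by rw [hcast]; linarith
  have hsq0 : 0 < Real.sqrt N := Real.sqrt_pos.mpr (by linarith)
  have hsqN : Real.sqrt N ≤ N := by
    rw [Real.sqrt_le_left (by linarith)]; nlinarith
  obtain ⟨M, hM⟩ : ∃ M : ℝ, M = ((2 * N - 1 : ℕ) : ℝ) := ⟨_, rfl⟩
  rw [← hM] at hge h1 ⊢
  have hM0 : 0 < M := by linarith
  have hsM0 : 0 < Real.sqrt M := Real.sqrt_pos.mpr hM0
  have e7 : ((7 : ℕ) : ℝ) = 7 := by norm_num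
  rw [e7]
  have h2 : 2 * (7 : ℝ) / (1 / 50 * M) ≤ 700 / Real.sqrt N := by
    rw [div_le_div_iff₀ (by positivity) hsq0]
    nlinarith
  have h3 : 2 * Real.sqrt 7 / (1 / 50 * Real.sqrt M) ≤ 300 / Real.sqrt N := by
    have h4 : Real.sqrt 7 ≤ 3 := by
      rw [Real.sqrt_le_left (by norm_num)]; norm_num
    have h5 : Real.sqrt N ≤ Real.sqrt M := Real.sqrt_le_sqrt hge
    rw [div_le_div_iff₀ (by positivity) hsq0]
    have h6 : 0 ≤ Real.sqrt (7 : ℝ) := Real.sqrt_nonneg _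
    have h7 := mul_le_mul h4 h5 hsq0.le (by norm_num : (0 : ℝ) ≤ 3)
    linarith
  have hcp := card_pos hN
  have hfin : ((KP (2 * N - 1)).card : ℝ) * (2 * δ + 2 * (7 : ℝ) / (1 / 50 * M) +
        2 * Real.sqrt 7 / (1 / 50 * Real.sqrt M)) +
        4 * (((KP (2 * N - 1)).filter (fun w => ((fc w).card : ℝ) < 1 / 50 * M)).card : ℝ)
      ≤ ((KP (2 * N - 1)).card : ℝ) * (2 * δ + 700 / Real.sqrt N + 300 / Real.sqrt N) +
        4 * (C / Real.sqrt N * ((KP (2 * N - 1)).card : ℝ)) := by gcongr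
  refine hfin.trans ?_
  calc _ = ((KP (2 * N - 1)).card : ℝ) * (2 * δ + (1000 + 4 * C) * (1 / Real.sqrt N)) := by ring
    _ ≤ ((KP (2 * N - 1)).card : ℝ) * ((1100 + 4 * C) * (δ + 1 / Real.sqrt N)) := by
        apply mul_le_mul_of_nonneg_left _ hcp.le
        have : 0 < 1 / Real.sqrt N := by positivity
        nlinarith

end Fin

end

end Pool.Agent.R54.AS
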