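import Pool.Agent.R54.AS.Stm

/-!
# AS-FLIP: corner flips of self-avoiding words
-/

set_option autoImplicit false
set_option maxHeartbeats 400000

namespace Pool.Agent.R715.ASFlip

open Finset Pool.Agent.H976R2 Pool.Agent.H976R2.Lip Pool.Agent.R54.AS
open scoped Classical

lemma split2 (w : List Dir) (i : ℕ) (hi : i + 1 < w.length) :
    w = w.take i ++ lt w i :: lt w (i + 1) :: w.drop (i + 2) := by
  have h1 := split_at w i (by omega)
  have h2 : w.drop (i + 1) = lt w (i + 1) :: w.drop (i + 2) := by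
    have h3 : lt w (i + 1) = w[i + 1] := by
      unfold lt
      rw [List.getD_eq_getElem?_getD, List.getElem?_eq_getElem hi]
      rfl
    rw [h3, List.getElem_cons_drop]
  rw [← h2]
  exact h1

lemma take_len (w : List Dir) (i : ℕ) (hi : i + 1 < w.length) : (w.take i).length = i := by
  rw [List.length_take]; omega

lemma sw_length (w : List Dir) (i : ℕ) (hi : i + 1 < w.length) : (sw w i).length = w.length := by
  unfold sw
  simp only [List.length_append, List.length_take, List.length_cons, List.length_drop]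
  omega

lemma sw_take (w : List Dir) (i : ℕ) (hi : i + 1 < w.length) : (sw w i).take i = w.take i := by
  unfold sw
  rw [List.take_append_of_le_length (by rw [List.length_take]; omega), List.take_take]
  congr 1
  omega

lemma sw_drop (w : List Dir) (i : ℕ) (hi : i + 1 < w.length) :
    (sw w i).drop (i + 2) = w.drop (i + 2) := by
  unfold sw
  rw [List.drop_append, take_len w i hi, show i + 2 - i = 2 by omega]
  rw [List.drop_of_length_le (by rw [take_len w i hi]; omega)]
  rfl

lemma lt_sw_lt (w : List Dir) (i j : ℕ) (hi : i + 1 < w.length) (hj : j < i) :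
    lt (sw w i) j = lt w j := by
  unfold lt sw
  rw [List.getD_eq_getElem?_getD, List.getD_eq_getElem?_getD]
  rw [List.getElem?_append_left (by rw [List.length_take]; omega), List.getElem?_take_of_lt hj]

lemma lt_sw_ge (w : List Dir) (i k : ℕ) (hi : i + 1 < w.length) :
    lt (sw w i) (i + k) = (lt w (i + 1) :: lt w i :: w.drop (i + 2)).getD k Dir.E := by
  conv_lhs => unfold lt sw
  rw [List.getD_eq_getElem?_getD, List.getD_eq_getElem?_getD]
  rw [List.getElem?_append_right (by rw [List.length_take]; omega)]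
  congr 2
  rw [List.length_take]
  omega

lemma lt_sw_0 (w : List Dir) (i : ℕ) (hi : i + 1 < w.length) : lt (sw w i) i = lt w (i + 1) := by
  have := lt_sw_ge w i 0 hi
  simpa using this

lemma lt_sw_1 (w : List Dir) (i : ℕ) (hi : i + 1 < w.length) : lt (sw w i) (i + 1) = lt w i := by
  have := lt_sw_ge w i 1 hi
  simpa using this

lemma lt_sw_gt (w : List Dir) (i j : ℕ) (hi : i + 1 < w.length) (hj : i + 1 < j) :
    lt (sw w i) j = lt w j := by
  obtain ⟨k, rfl⟩ : ∃ k, j = i + (k + 2) := ⟨j - i - 2, by omega⟩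
  rw [lt_sw_ge w i (k + 2) hi]
  simp only [List.getD_cons_succ]
  unfold lt
  rw [List.getD_eq_getElem?_getD, List.getD_eq_getElem?_getD, List.getElem?_drop,
    show i + 2 + k = i + (k + 2) by ring]

lemma PP_sw (w : List Dir) (i : ℕ) (hi : i + 1 < w.length) (j : ℕ) (hj : j ≠ i + 1) :
    PP (sw w i) j = PP w j := by
  rcases Nat.lt_or_ge i j with h | h
  · obtain ⟨k, rfl⟩ : ∃ k, j = i + (k + 2) := ⟨j - i - 2, by omega⟩
    have hl := take_len w i hi
    have h1 : (sw w i).take (i + (k + 2)) =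
        w.take i ++ lt w (i + 1) :: lt w i :: (w.drop (i + 2)).take k := by
      unfold sw
      rw [List.take_append, hl, show i + (k + 2) - i = k + 2 by omega]
      simp only [List.take_succ_cons]
      congr 1
      exact List.take_of_length_le (by rw [hl]; omega)
    have h2 : w.take (i + (k + 2)) =
        w.take i ++ lt w i :: lt w (i + 1) :: (w.drop (i + 2)).take k := by
      conv_lhs => rw [split2 w i hi]
      rw [List.take_append, hl, show i + (k + 2) - i = k + 2 by omega]
      simp only [List.take_succ_cons]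
      congr 1
      exact List.take_of_length_le (by rw [hl]; omega)
    unfold PP
    rw [h1, h2]
    simp only [wX_append, wY_append, wX_cons, wY_cons, Prod.mk.injEq]
    constructor <;> ring
  · have : (sw w i).take j = w.take j := by
      unfold sw
      rw [List.take_append_of_le_length (by rw [List.length_take]; omega), List.take_take]
      congr 1
      omega
    unfold PP
    rw [this]

lemma PP_sw_1 (w : List Dir) (i : ℕ) (hi : i + 1 < w.length) : PP (sw w i) (i + 1) = fv w i := by
  rw [PP_succ _ _ (by rw [sw_length w i hi]; omega), PP_sw w i hi i (by omega), lt_sw_0 w i hi]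
  rfl

lemma vis_iff (w : List Dir) (p : ℤ × ℤ) : vis w p ↔ ∃ j, j ≤ w.length ∧ PP w j = p := by
  unfold vis PP
  constructor
  · rintro ⟨a, b, h, h1, h2⟩
    refine ⟨a.length, by rw [h, List.length_append]; omega, ?_⟩
    have : w.take a.length = a := by rw [h]; simp
    rw [this, h1, h2]
  · rintro ⟨j, _, h⟩
    refine ⟨w.take j, w.drop j, (List.take_append_drop j w).symm, ?_, ?_⟩
    · rw [← h]
    · rw [← h]

lemma saw_of_inj (w : List Dir)
    (h : ∀ j k, j ≤ w.length → k ≤ w.length → PP w j = PP w k → j = k) : Saw w := by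
  rw [saw_iff_pos]
  intro a b c d h1 h2 hX hY
  have ha : w.take a.length = a := by rw [h1]; simp
  have hc : w.take c.length = c := by rw [h2]; simp
  have hla : a.length ≤ w.length := by rw [h1, List.length_append]; omega
  have hlc : c.length ≤ w.length := by rw [h2, List.length_append]; omega
  have := h a.length c.length hla hlc (by
    unfold PP; rw [ha, hc, hX, hY])
  rw [← ha, ← hc, this]

lemma mem_fc (w : List Dir) (i : ℕ) : i ∈ fc w ↔
    (i + 1 < w.length ∧ perp (lt w i) (lt w (i + 1)) ∧ ¬ vis w (fv w i)) := by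
  unfold fc
  rw [mem_filter, mem_range]
  constructor
  · exact fun h => h.2
  · exact fun h => ⟨by omega, h⟩

lemma mem_nr (w : List Dir) (i j : ℕ) : j ∈ nr w i ↔
    (j ∈ fc w ∧ ((i ≤ j + 1 ∧ j ≤ i + 1) ∨ fv w j = fv w i)) := by
  unfold nr
  rw [mem_filter]

lemma vis_PP (w : List Dir) (j : ℕ) (hj : j ≤ w.length) : vis w (PP w j) :=
  (vis_iff w _).mpr ⟨j, hj, rfl⟩

lemma vis_sw (w : List Dir) (i : ℕ) (hi : i + 1 < w.length) (p : ℤ × ℤ) (h : vis (sw w i) p) :
    p = fv w i ∨ ∃ j, j ≤ w.length ∧ j ≠ i + 1 ∧ PP w j = p := by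
  rw [vis_iff] at h
  obtain ⟨j, hj, hp⟩ := h
  rw [sw_length w i hi] at hj
  by_cases h1 : j = i + 1
  · left; rw [← hp, h1, PP_sw_1 w i hi]
  · right; exact ⟨j, hj, h1, by rw [← hp, PP_sw w i hi j h1]⟩

lemma sw_saw (w : List Dir) (hw : Saw w) (i : ℕ) (hi : i + 1 < w.length)
    (hv : ¬ vis w (fv w i)) : Saw (sw w i) := by
  apply saw_of_inj
  intro j k hj hk h
  rw [sw_length w i hi] at hj hk
  by_cases h1 : j = i + 1
  · by_cases h2 : k = i + 1
    · rw [h1, h2]
    · exfalso
      rw [h1, PP_sw_1 w i hi, PP_sw w i hi k h2] at h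
      exact hv (h ▸ vis_PP w k hk)
  · by_cases h2 : k = i + 1
    · exfalso
      rw [h2, PP_sw_1 w i hi, PP_sw w i hi j h1] at h
      exact hv (h ▸ vis_PP w j hj)
    · rw [PP_sw w i hi j h1, PP_sw w i hi k h2] at h
      exact PP_inj hw hj hk h

lemma sw_sw (w : List Dir) (i : ℕ) (hi : i + 1 < w.length) : sw (sw w i) i = w := by
  have h : sw (sw w i) i = (sw w i).take i ++ lt (sw w i) (i + 1) :: lt (sw w i) i ::
      (sw w i).drop (i + 2) := rfl
  rw [h, sw_take w i hi, sw_drop w i hi, lt_sw_0 w i hi, lt_sw_1 w i hi]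
  exact (split2 w i hi).symm

lemma sw_sq (w : List Dir) (i : ℕ) (hi : i + 1 < w.length) : sq (sw w i) = sq w := by
  have h1 : wX (sw w i) = wX w := by
    conv_rhs => rw [split2 w i hi]
    unfold sw
    simp only [wX_append, wX_cons]
    ring
  have h2 : wY (sw w i) = wY w := by
    conv_rhs => rw [split2 w i hi]
    unfold sw
    simp only [wY_append, wY_cons]
    ring
  unfold Pool.Agent.H976R2.sq
  rw [h1, h2]

lemma fv_sw_self (w : List Dir) (i : ℕ) (hi : i + 1 < w.length) :
    fv (sw w i) i = PP w (i + 1) := by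
  have : fv (sw w i) i = PP (sw w i) i + dv (lt (sw w i) (i + 1)) := rfl
  rw [this, PP_sw w i hi i (by omega), lt_sw_1 w i hi, PP_succ w i (by omega)]

lemma self_mem (w : List Dir) (hw : Saw w) (i : ℕ) (h : i ∈ fc w) : i ∈ fc (sw w i) := by
  rw [mem_fc] at h
  obtain ⟨hi, hp, hv⟩ := h
  rw [mem_fc, sw_length w i hi, lt_sw_0 w i hi, lt_sw_1 w i hi, fv_sw_self w i hi]
  refine ⟨hi, ?_, ?_⟩
  · unfold perp at hp ⊢
    rw [mul_comm (dx (lt w (i + 1))), mul_comm (dy (lt w (i + 1)))]
    exact hp
  · intro hv2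
    rcases vis_sw w i hi _ hv2 with h1 | ⟨j, hj, hji, h1⟩
    · exact hv (h1 ▸ vis_PP w (i + 1) (by omega))
    · exact hji (PP_inj hw hj (by omega) h1)

/-- the four diagonal neighbours -/
def diag (u : ℤ × ℤ) : Finset (ℤ × ℤ) := {u + (1, 1), u + (1, -1), u + (-1, 1), u + (-1, -1)}

lemma diag_card (u : ℤ × ℤ) : (diag u).card ≤ 4 := Finset.card_le_four

lemma mem_diag (w : List Dir) (j : ℕ) (h : j ∈ fc w) : PP w (j + 1) ∈ diag (fv w j) := by
  rw [mem_fc] at h
  obtain ⟨hj, hp, -⟩ := h
  rw [PP_succ w j (by omega)]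
  have hf : fv w j = PP w j + dv (lt w (j + 1)) := rfl
  rw [hf]
  unfold perp at hp
  unfold diag dv
  simp only [mem_insert, mem_singleton]
  generalize PP w j = q
  obtain ⟨q1, q2⟩ := q
  generalize lt w j = a at *
  generalize lt w (j + 1) = b at *
  cases a <;> cases b <;> simp [dx, dy] at hp ⊢

lemma nr_card (w : List Dir) (hw : Saw w) (i : ℕ) : (nr w i).card ≤ 7 := by
  have h1 : nr w i ⊆ Icc (i - 1) (i + 1) ∪ (fc w).filter (fun j => fv w j = fv w i) := by
    intro j hj
    rw [mem_nr] at hj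
    rw [mem_union, mem_filter, mem_Icc]
    rcases hj.2 with h | h
    · left; omega
    · right; exact ⟨hj.1, h⟩
  have h2 : ((fc w).filter (fun j => fv w j = fv w i)).card ≤ 4 := by
    refine le_trans ?_ (diag_card (fv w i))
    apply card_le_card_of_injOn (fun j => PP w (j + 1))
    · intro j hj
      rw [mem_coe, mem_filter] at hj
      rw [mem_coe, ← hj.2]
      exact mem_diag w j hj.1
    · intro j hj k hk hjk
      rw [mem_coe, mem_filter, mem_fc] at hj hk
      have := PP_inj hw (by omega) (by omega) hjk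
      omega
  have h3 : (Icc (i - 1) (i + 1)).card ≤ 3 := by rw [Nat.card_Icc]; omega
  calc (nr w i).card ≤ _ := card_le_card h1
    _ ≤ _ := card_union_le _ _
    _ ≤ 7 := by omega

lemma far (w : List Dir) (i : ℕ) (h : i ∈ fc w) (j : ℕ) (hj : j ∈ fc w)
    (hn : j ∉ nr w i) : j ∈ fc (sw w i) ∧ j ∉ nr (sw w i) i := by
  have hj0 := hj
  rw [mem_nr] at hn
  push Not at hn
  have hn := hn hj
  rw [mem_fc] at h hj
  obtain ⟨hi, hp, hv⟩ := h
  obtain ⟨hj1, hjp, hjv⟩ := hj
  have hfar : j + 1 < i ∨ i + 1 < j := by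
    by_contra hc
    have := hn.1 (by omega)
    omega
  have l0 : lt (sw w i) j = lt w j := by
    rcases hfar with h | h
    · exact lt_sw_lt w i j hi (by omega)
    · exact lt_sw_gt w i j hi h
  have l1 : lt (sw w i) (j + 1) = lt w (j + 1) := by
    rcases hfar with h | h
    · exact lt_sw_lt w i (j + 1) hi h
    · exact lt_sw_gt w i (j + 1) hi (by omega)
  have hf : fv (sw w i) j = fv w j := by
    have e1 : fv (sw w i) j = PP (sw w i) j + dv (lt (sw w i) (j + 1)) := rfl
    rw [e1, PP_sw w i hi j (by omega), l1]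
    rfl
  constructor
  · rw [mem_fc, sw_length w i hi, l0, l1, hf]
    refine ⟨hj1, hjp, ?_⟩
    intro hv2
    rcases vis_sw w i hi _ hv2 with h1 | ⟨k, hk, hki, h1⟩
    · exact hn.2 h1
    · exact hjv (h1 ▸ vis_PP w k hk)
  · rw [mem_nr]
    rintro ⟨-, h1 | h1⟩
    · omega
    · rw [hf, fv_sw_self w i hi] at h1
      exact hjv (h1 ▸ vis_PP w (i + 1) (by omega))

end Pool.Agent.R715.ASFlip

namespace Pool.Agent.R54.AS

open Finset Pool.Agent.H976R2 Pool.Agent.H976R2.Lip

open Pool.Agent.R715.ASFlip in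
theorem flip : S_flip := by
  intro w hw i h
  have h0 := h
  rw [mem_fc] at h0
  obtain ⟨hi, hp, hv⟩ := h0
  refine ⟨sw_length w i hi, sw_saw w hw i hi hv, sw_sq w i hi, self_mem w hw i h, sw_sw w i hi,
    fun j hj => PP_sw w i hi j hj, ?_, ?_, nr_card w hw i, fun j hj hn => far w i h j hj hn⟩
  · rw [mem_nr]
    exact ⟨h, Or.inl ⟨by omega, by omega⟩⟩
  · intro j hj
    rw [mem_nr] at hj
    exact hj.1

end Pool.Agent.R54.AS
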