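import Pool.Agent.R54.AS.Stm

/-!
# AS-AREA: the flip of a free corner changes the area by one
-/

set_option autoImplicit false

namespace Pool.Agent.R54.AS

open Finset Pool.Agent.H976R2 Pool.Agent.H976R2.Lip Pool.Agent.H924P Pool.Agent.H739K
open scoped Classical

namespace AreaX

open Pool.Agent.H739K.AREAx

/-- the cell of the corner `i` -/
def cell (w : List Dir) (i : ℕ) : ℤ × ℤ :=
  (min (PP w i).1 (PP w (i + 2)).1, min (PP w i).2 (PP w (i + 2)).2)

/-- the cell `c` is enclosed by the polygon of `w` -/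
def En (w : List Dir) (c : ℤ × ℤ) : Prop := Encl (w.length + 1) (lp (w.length + 1) w) c

theorem PP_two (w : List Dir) (i : ℕ) (hi : i + 1 < w.length) :
    PP w (i + 2) = PP w i + dv (lt w i) + dv (lt w (i + 1)) := by
  rw [show i + 2 = (i + 1) + 1 from rfl, PP_succ w (i + 1) hi, PP_succ w i (by omega)]

theorem split2 (w : List Dir) (i : ℕ) (hi : i + 1 < w.length) :
    w = w.take i ++ lt w i :: lt w (i + 1) :: w.drop (i + 2) := by
  have h1 : w.drop i = w[i] :: w.drop (i + 1) := List.drop_eq_getElem_cons (by omega)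
  have h2 : w.drop (i + 1) = w[i + 1] :: w.drop (i + 2) := List.drop_eq_getElem_cons (by omega)
  have e1 : lt w i = w[i] := by
    unfold lt
    rw [List.getD_eq_getElem?_getD, List.getElem?_eq_getElem (by omega)]
    rfl
  have e2 : lt w (i + 1) = w[i + 1] := by
    unfold lt
    rw [List.getD_eq_getElem?_getD, List.getElem?_eq_getElem (by omega)]
    rfl
  rw [e1, e2, ← h2, ← h1, List.take_append_drop]

/-- a vertical edge -/
theorem ed_v (p c : ℤ × ℤ) (e : Dir) (h : dx e = 0) : ed p (p + dv e) c = 0 := by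
  refine if_neg ?_
  rintro ⟨h1, -⟩
  have h2 : (p + dv e).1 = p.1 + dx e := rfl
  rw [h2, h] at h1
  omega

/-- a horizontal edge -/
theorem ed_h (p c : ℤ × ℤ) (e : Dir) (h : dx e = 1 ∨ dx e = -1) :
    (ed p (p + dv e) c = 1 ∧ c.1 = min p.1 (p.1 + dx e) ∧ c.2 < p.2) ∨
    (ed p (p + dv e) c = 0 ∧ ¬ (c.1 = min p.1 (p.1 + dx e) ∧ c.2 < p.2)) := by
  have h2 : (p + dv e).1 = p.1 + dx e := rfl
  by_cases hq : Q p (p + dv e) c
  · refine Or.inl ⟨if_pos hq, ?_, hq.2⟩
    have := hq.1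
    rw [h2] at this
    omega
  · refine Or.inr ⟨if_neg hq, ?_⟩
    rintro ⟨h3, h4⟩
    apply hq
    refine ⟨?_, h4⟩
    rw [h2]
    omega

theorem dir_cases (d : Dir) : (dy d = 0 ∧ (dx d = 1 ∨ dx d = -1)) ∨
    (dx d = 0 ∧ (dy d = 1 ∨ dy d = -1)) := by
  cases d <;> simp [dx, dy]

theorem perp_cases (d e : Dir) (h : perp d e) :
    (dy d = 0 ∧ (dx d = 1 ∨ dx d = -1) ∧ dx e = 0 ∧ (dy e = 1 ∨ dy e = -1)) ∨
    (dx d = 0 ∧ (dy d = 1 ∨ dy d = -1) ∧ dy e = 0 ∧ (dx e = 1 ∨ dx e = -1)) := by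
  cases d <;> cases e <;> simp [perp, dx, dy] at h ⊢

theorem local_ne (P c : ℤ × ℤ) (d e : Dir) (h : perp d e)
    (hc : c ≠ (min P.1 (P + dv d + dv e).1, min P.2 (P + dv d + dv e).2)) :
    ed P (P + dv d) c + ed (P + dv d) (P + dv d + dv e) c =
      ed P (P + dv e) c + ed (P + dv e) (P + dv e + dv d) c := by
  have hc' : ¬ (c.1 = min P.1 (P.1 + dx d + dx e) ∧ c.2 = min P.2 (P.2 + dy d + dy e)) := by
    intro hh
    apply hc
    exact Prod.ext hh.1 hh.2
  clear hc
  rcases perp_cases d e h with ⟨h1, h2, h3, h4⟩ | ⟨h1, h2, h3, h4⟩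
  · rw [ed_v (P + dv d) c e h3, ed_v P c e h3]
    have k1 := ed_h P c d h2
    have k2 := ed_h (P + dv e) c d h2
    have e1 : (P + dv e).1 = P.1 + dx e := rfl
    have e2 : (P + dv e).2 = P.2 + dy e := rfl
    rw [e1, e2] at k2
    generalize ed P (P + dv d) c = t1 at *
    generalize ed (P + dv e) (P + dv e + dv d) c = t2 at *
    omega
  · rw [ed_v P c d h1, ed_v (P + dv e) c d h1]
    have k1 := ed_h P c e h4
    have k2 := ed_h (P + dv d) c e h4
    have e1 : (P + dv d).1 = P.1 + dx d := rfl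
    have e2 : (P + dv d).2 = P.2 + dy d := rfl
    rw [e1, e2] at k2
    generalize ed P (P + dv e) c = t1 at *
    generalize ed (P + dv d) (P + dv d + dv e) c = t2 at *
    omega

theorem local_eq (P c : ℤ × ℤ) (d e : Dir) (h : perp d e)
    (hc : c = (min P.1 (P + dv d + dv e).1, min P.2 (P + dv d + dv e).2)) :
    ed P (P + dv d) c + ed (P + dv d) (P + dv d + dv e) c +
      (ed P (P + dv e) c + ed (P + dv e) (P + dv e + dv d) c) = 1 := by
  have hc' : c.1 = min P.1 (P.1 + dx d + dx e) ∧ c.2 = min P.2 (P.2 + dy d + dy e) := by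
    rw [hc]
    exact ⟨rfl, rfl⟩
  clear hc
  rcases perp_cases d e h with ⟨h1, h2, h3, h4⟩ | ⟨h1, h2, h3, h4⟩
  · rw [ed_v (P + dv d) c e h3, ed_v P c e h3]
    have k1 := ed_h P c d h2
    have k2 := ed_h (P + dv e) c d h2
    have e1 : (P + dv e).1 = P.1 + dx e := rfl
    have e2 : (P + dv e).2 = P.2 + dy e := rfl
    rw [e1, e2] at k2
    generalize ed P (P + dv d) c = t1 at *
    generalize ed (P + dv e) (P + dv e + dv d) c = t2 at *
    omega
  · rw [ed_v P c d h1, ed_v (P + dv e) c d h1]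
    have k1 := ed_h P c e h4
    have k2 := ed_h (P + dv d) c e h4
    have e1 : (P + dv d).1 = P.1 + dx d := rfl
    have e2 : (P + dv d).2 = P.2 + dy d := rfl
    rw [e1, e2] at k2
    generalize ed P (P + dv e) c = t1 at *
    generalize ed (P + dv d) (P + dv d + dv e) c = t2 at *
    omega

theorem cw_w (w : List Dir) (i : ℕ) (hi : i + 1 < w.length) (c : ℤ × ℤ) :
    cw c 0 w = cw c 0 (w.take i) + (ed (PP w i) (PP w i + dv (lt w i)) c +
      (ed (PP w i + dv (lt w i)) (PP w i + dv (lt w i) + dv (lt w (i + 1))) c +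
        cw c (PP w i + dv (lt w i) + dv (lt w (i + 1))) (w.drop (i + 2)))) := by
  have hP : (0 : ℤ × ℤ) + disp (w.take i) = PP w i := by rw [zero_add]; rfl
  conv_lhs => rw [split2 w i hi]
  rw [cw_append, hP]
  simp only [cw]

theorem cw_sw (w : List Dir) (i : ℕ) (c : ℤ × ℤ) :
    cw c 0 (sw w i) = cw c 0 (w.take i) + (ed (PP w i) (PP w i + dv (lt w (i + 1))) c +
      (ed (PP w i + dv (lt w (i + 1))) (PP w i + dv (lt w (i + 1)) + dv (lt w i)) c +
        cw c (PP w i + dv (lt w (i + 1)) + dv (lt w i)) (w.drop (i + 2)))) := by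
  have hP : (0 : ℤ × ℤ) + disp (w.take i) = PP w i := by rw [zero_add]; rfl
  unfold sw
  rw [cw_append, hP]
  simp only [cw]

theorem disp_sw (w : List Dir) (i : ℕ) (hi : i + 1 < w.length) : disp (sw w i) = disp w := by
  conv_rhs => rw [split2 w i hi]
  unfold sw disp
  simp only [wX_append, wY_append, wX_cons, wY_cons, Prod.mk.injEq]
  constructor <;> ring

theorem en_ne (w : List Dir) (i : ℕ) (hi : i + 1 < w.length) (hp : perp (lt w i) (lt w (i + 1)))
    (c : ℤ × ℤ) (hc : c ≠ cell w i) : En (sw w i) c ↔ En w c := by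
  unfold En
  rw [encl_iff, encl_iff, disp_sw w i hi, cw_w w i hi, cw_sw w i]
  have h := local_ne (PP w i) c _ _ hp (by
    rw [← PP_two w i hi]
    exact hc)
  have h2 : PP w i + dv (lt w (i + 1)) + dv (lt w i) = PP w i + dv (lt w i) + dv (lt w (i + 1)) := by
    ring
  rw [h2] at h ⊢
  rw [Nat.odd_iff, Nat.odd_iff]
  omega

theorem en_eq (w : List Dir) (i : ℕ) (hi : i + 1 < w.length) (hp : perp (lt w i) (lt w (i + 1))) :
    En (sw w i) (cell w i) ↔ ¬ En w (cell w i) := by
  unfold En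
  rw [encl_iff, encl_iff, disp_sw w i hi, cw_w w i hi, cw_sw w i]
  have h := local_eq (PP w i) (cell w i) _ _ hp (by
    rw [← PP_two w i hi]
    rfl)
  have h2 : PP w i + dv (lt w (i + 1)) + dv (lt w i) = PP w i + dv (lt w i) + dv (lt w (i + 1)) := by
    ring
  rw [h2] at h ⊢
  rw [Nat.odd_iff, Nat.odd_iff]
  omega

theorem finite_en (w : List Dir) (hw : Saw w) (hsq : sq w = 1) : {c | En w c}.Finite := by
  have hmem : w ∈ KP w.length := by
    rw [KP, Finset.mem_filter]
    exact ⟨mem_SW.2 ⟨rfl, hw⟩, hsq⟩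
  have h1 : pth w.length w ∈ {f | IsLoop (w.length + 1) f} := by
    rw [← CONV.image_eq]
    exact ⟨w, hmem, rfl⟩
  have h2 : IsLoop (w.length + 1) (lp (w.length + 1) w) := h1
  have h3 := HORaux.finite_encl (m := w.length + 1) h2.2.2
  exact h3

theorem ar_eq (w : List Dir) : ar w = {c | En w c}.ncard := rfl

/-- the sign of a flip -/
theorem sg_eq (w : List Dir) (i : ℕ) (hi : i + 1 < w.length) (hp : perp (lt w i) (lt w (i + 1)))
    (hw : Saw w) (hsq : sq w = 1) (hw' : Saw (sw w i)) (hsq' : sq (sw w i) = 1) :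
    sg w i = if En w (cell w i) then -1 else 1 := by
  have hne := en_ne w i hi hp
  have heq := en_eq w i hi hp
  have hf := finite_en w hw hsq
  have hf' := finite_en (sw w i) hw' hsq'
  unfold sg
  rw [ar_eq, ar_eq]
  split_ifs with h
  · have h1 : {c | En w c} = insert (cell w i) {c | En (sw w i) c} := by
      ext c
      simp only [Set.mem_ofPred_eq, Set.mem_insert_iff]
      by_cases hc : c = cell w i
      · rw [hc]; simp [h]
      · rw [hne c hc]; simp [hc]
    have h2 : cell w i ∉ {c | En (sw w i) c} := fun h3 => (heq.1 h3) h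
    rw [h1, Set.ncard_insert_of_notMem h2 hf']
    push_cast
    ring
  · have h1 : {c | En (sw w i) c} = insert (cell w i) {c | En w c} := by
      ext c
      simp only [Set.mem_ofPred_eq, Set.mem_insert_iff]
      by_cases hc : c = cell w i
      · rw [hc]; simp [heq.2 h]
      · rw [hne c hc]; simp [hc]
    have h2 : cell w i ∉ {c | En w c} := h
    rw [h1, Set.ncard_insert_of_notMem h2 hf]
    push_cast
    ring

theorem vis_PP (w : List Dir) (k : ℕ) : vis w (PP w k) :=
  ⟨w.take k, w.drop k, (List.take_append_drop k w).symm, rfl, rfl⟩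

theorem mem_fc (w : List Dir) (i : ℕ) : i ∈ fc w ↔
    i + 1 < w.length ∧ perp (lt w i) (lt w (i + 1)) ∧ ¬ vis w (fv w i) := by
  unfold fc
  rw [Finset.mem_filter, Finset.mem_range]
  constructor
  · exact fun h => h.2
  · exact fun h => ⟨by omega, h⟩

/-- the fourth vertex lies on the square -/
theorem fv_square (w : List Dir) (i : ℕ) (hi : i + 1 < w.length)
    (hp : perp (lt w i) (lt w (i + 1))) :
    ((fv w i).1 = (cell w i).1 ∨ (fv w i).1 = (cell w i).1 + 1) ∧
    ((fv w i).2 = (cell w i).2 ∨ (fv w i).2 = (cell w i).2 + 1) := by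
  unfold fv cell
  rw [PP_two w i hi]
  generalize PP w i = P at *
  generalize lt w i = d at *
  generalize lt w (i + 1) = e at *
  obtain ⟨x, y⟩ := P
  cases e <;> cases d <;> simp [perp, dx, dy] at hp <;>
    simp only [dv, dx, dy, Prod.mk_add_mk] <;> omega

/-- the vertices of the square -/
theorem square (w : List Dir) (i : ℕ) (hi : i + 1 < w.length)
    (hp : perp (lt w i) (lt w (i + 1))) (p : ℤ × ℤ)
    (h : (p.1 = (cell w i).1 ∨ p.1 = (cell w i).1 + 1) ∧
    (p.2 = (cell w i).2 ∨ p.2 = (cell w i).2 + 1)) :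
    p = PP w i ∨ p = PP w (i + 1) ∨ p = PP w (i + 2) ∨ p = fv w i := by
  unfold cell at h
  unfold fv
  rw [PP_two w i hi] at h ⊢
  rw [PP_succ w i (by omega)]
  generalize PP w i = P at *
  generalize lt w i = d at *
  generalize lt w (i + 1) = e at *
  obtain ⟨x, y⟩ := P
  obtain ⟨a, b⟩ := p
  cases e <;> cases d <;> simp [perp, dx, dy] at hp <;>
    simp only [dv, dx, dy, Prod.mk_add_mk, Prod.mk.injEq] at h ⊢ <;> omega

end AreaX

open AreaX in
theorem areaS (hf : S_flip) : S_ar := by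
  intro w _ hw hsq i hi
  obtain ⟨hl, hw', hsq', hi', hss, hPP, hin, hsub, -, hfar⟩ := hf w hw i hi
  obtain ⟨hi1, hp, hv⟩ := (mem_fc w i).1 hi
  have hs := sg_eq w i hi1 hp hw hsq hw' (by rw [hsq', hsq])
  constructor
  · rw [hs]
    split_ifs
    · exact Or.inr rfl
    · exact Or.inl rfl
  · intro j hj hjn
    obtain ⟨hj1, hpj, hvj⟩ := (mem_fc w j).1 hj
    obtain ⟨hj', -⟩ := hfar j hj hjn
    obtain ⟨hj1', hpj', hvj'⟩ := (mem_fc (sw w i) j).1 hj'
    have hfarij : ¬ ((i ≤ j + 1 ∧ j ≤ i + 1) ∨ fv w j = fv w i) := by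
      intro h
      apply hjn
      unfold nr
      rw [Finset.mem_filter]
      exact ⟨hj, h⟩
    have hcell : cell (sw w i) j = cell w j := by
      unfold cell
      rw [hPP j (by omega), hPP (j + 2) (by omega)]
    have hne : cell w j ≠ cell w i := by
      intro h
      have h1 := fv_square w j hj1 hpj
      rw [h] at h1
      rcases square w i hi1 hp _ h1 with h2 | h2 | h2 | h2
      · exact hvj (h2 ▸ vis_PP w i)
      · exact hvj (h2 ▸ vis_PP w (i + 1))
      · exact hvj (h2 ▸ vis_PP w (i + 2))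
      · exact hfarij (Or.inr h2)
    obtain ⟨-, hwj, hsqj, -⟩ := hf w hw j hj
    obtain ⟨-, hwj', hsqj', -⟩ := hf (sw w i) hw' j hj'
    rw [sg_eq w j hj1 hpj hw hsq hwj (by rw [hsqj, hsq]),
      sg_eq (sw w i) j hj1' hpj' hw' (by rw [hsq', hsq]) hwj' (by rw [hsqj', hsq', hsq]), hcell]
    have hen := en_ne w i hi1 hp (cell w j) hne
    by_cases h : En w (cell w j)
    · rw [if_pos h, if_pos (hen.2 h)]
    · rw [if_neg h, if_neg (fun h' => h (hen.1 h'))]

end Pool.Agent.R54.AS
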