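import Pool.Agent.R54.AS.Fin

/-!
# Smoothness of the area law of self-avoiding polygons: consequences
-/

set_option autoImplicit false
set_option linter.unusedVariables false

namespace Pool.Agent.R54.AS

open Finset Pool.Agent.H976R2 Pool.Agent.H976R2.Lip Pool.Agent.H924P Pool.Agent.H739K
open scoped Classical

noncomputable section

/-- number of free corners of a loop -/
def frc (N : ℕ) (f : ZMod (2 * N) → ℤ × ℤ) : ℕ :=
  Nat.card {k : ZMod (2 * N) // ∀ j, f j ≠ f (k - 1) + f (k + 1) - f k}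

/-- probability -/
def pr (N : ℕ) (Q : (ZMod (2 * N) → ℤ × ℤ) → Prop) : ℝ := me N (fun f => if Q f then 1 else 0)

namespace Final

open Pool.Agent.H739K.F4x (me_eq ar_eq len_of_KP)

lemma me_sub {N : ℕ} (hN : 2 ≤ N) (F G : (ZMod (2 * N) → ℤ × ℤ) → ℝ) :
    me N F - me N G = (∑ w ∈ KP (2 * N - 1), (F (lp (2 * N) w) - G (lp (2 * N) w))) /
      ((KP (2 * N - 1)).card : ℝ) := by
  rw [me_eq CONV_proof hN, me_eq CONV_proof hN, Finset.sum_sub_distrib, sub_div]

/-- (1) for the means -/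
theorem part1 (hf : S_flip) (ha : S_ar) (habs : S_abs) : ∃ C : ℝ, 0 < C ∧ ∀ N : ℕ, 2 ≤ N →
    ∀ (g : ℤ → ℝ) (F : (ZMod (2 * N) → ℤ × ℤ) → ℝ) (δ : ℝ), (∀ a, |g a| ≤ 1) →
    (∀ f, IsLoop (2 * N) f → |F f| ≤ 1) →
    (∀ f f' : ZMod (2 * N) → ℤ × ℤ, IsLoop (2 * N) f → IsLoop (2 * N) f' →
      (∃ k, ∀ j, j ≠ k → f j = f' j) → |F f - F f'| ≤ δ) →
    |me N (fun f => F f * g ((area (2 * N) f : ℤ) + 1)) -
      me N (fun f => F f * g (area (2 * N) f : ℤ))| ≤ C * (δ + 1 / Real.sqrt N) := by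
  obtain ⟨C, hC, h⟩ := Fin.words hf ha habs
  refine ⟨C, hC, fun N hN g F δ hg hF hFδ => ?_⟩
  have hcp := Fin.card_pos hN
  have hδ : 0 ≤ δ := by
    have hne : (KP (2 * N - 1)).Nonempty := by
      rw [← Finset.card_pos]; exact_mod_cast hcp
    obtain ⟨w, hw⟩ := hne
    have hl := (CONV_proof N hN).2.2 w hw
    exact (abs_nonneg _).trans (hFδ _ _ hl hl ⟨0, fun _ _ => rfl⟩)
  have h1 := h N hN g F δ hδ hg hF hFδ
  rw [me_sub hN]
  have e : ∑ w ∈ KP (2 * N - 1), (F (lp (2 * N) w) * g ((area (2 * N) (lp (2 * N) w) : ℤ) + 1) -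
      F (lp (2 * N) w) * g (area (2 * N) (lp (2 * N) w) : ℤ)) =
      ∑ w ∈ KP (2 * N - 1), F (lp (2 * N) w) * (g ((ar w : ℤ) + 1) - g (ar w)) := by
    apply Finset.sum_congr rfl
    intro w hw
    rw [← ar_eq hN hw]
    ring
  rw [e, abs_div, abs_of_pos hcp, div_le_iff₀ hcp]
  linarith [h1]

/-- the case of constant weight -/
theorem part0 (hf : S_flip) (ha : S_ar) (habs : S_abs) : ∃ C : ℝ, 0 < C ∧ ∀ N : ℕ, 2 ≤ N →
    ∀ (g : ℤ → ℝ), (∀ a, |g a| ≤ 1) →
    |me N (fun f => g ((area (2 * N) f : ℤ) + 1) - g (area (2 * N) f : ℤ))| ≤ C / Real.sqrt N := by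
  obtain ⟨C, hC, h⟩ := part1 hf ha habs
  refine ⟨C, hC, fun N hN g hg => ?_⟩
  have h1 := h N hN g (fun _ => 1) 0 hg (fun _ _ => by simp) (fun _ _ _ _ _ => by simp)
  have e : me N (fun f => g ((area (2 * N) f : ℤ) + 1) - g (area (2 * N) f : ℤ)) =
      me N (fun f => (fun _ => (1 : ℝ)) f * g ((area (2 * N) f : ℤ) + 1)) -
      me N (fun f => (fun _ => (1 : ℝ)) f * g (area (2 * N) f : ℤ)) := by
    rw [me_sub hN, me_eq CONV_proof hN]
    simp only [one_mul]
  rw [e]
  refine h1.trans (le_of_eq ?_)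
  rw [zero_add, mul_one_div]

lemma me_nonneg {N : ℕ} (hN : 2 ≤ N) (F : (ZMod (2 * N) → ℤ × ℤ) → ℝ) (h : ∀ f, 0 ≤ F f) :
    0 ≤ me N F := by
  rw [me_eq CONV_proof hN]
  exact div_nonneg (Finset.sum_nonneg fun w _ => h _) (by positivity)

/-- (3) no atoms -/
theorem part3 (hf : S_flip) (ha : S_ar) (habs : S_abs) : ∃ C : ℝ, 0 < C ∧ ∀ N : ℕ, 2 ≤ N →
    ∀ a : ℕ, pr N (fun f => area (2 * N) f = a) ≤ C / Real.sqrt N := by
  obtain ⟨C, hC, h⟩ := part0 hf ha habs
  refine ⟨C, hC, fun N hN a => ?_⟩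
  have h1 := h N hN (fun x => if (a : ℤ) < x then 1 else 0) (fun x => by split_ifs <;> simp)
  have e : pr N (fun f => area (2 * N) f = a) =
      me N (fun f => (fun x : ℤ => if (a : ℤ) < x then (1 : ℝ) else 0) ((area (2 * N) f : ℤ) + 1) -
        (fun x : ℤ => if (a : ℤ) < x then (1 : ℝ) else 0) (area (2 * N) f : ℤ)) := by
    unfold pr
    congr 1
    funext f
    simp only
    split_ifs <;> first | omega | norm_num
  rw [e]
  exact (le_abs_self _).trans h1

lemma mod_id (A q r : ℕ) (hq : 1 ≤ q) (inst : Decidable (A ≡ r [MOD q])) :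
    (if A ≡ r [MOD q] then (1 : ℝ) else 0) - 1 / q =
      - (((((A : ℤ) + 1 - r - 1) % (q : ℤ) : ℤ) : ℝ) / q) -
        - (((((A : ℤ) - r - 1) % (q : ℤ) : ℤ) : ℝ) / q) := by
  have hq0 : (0 : ℝ) < q := by exact_mod_cast hq
  have hqz : (0 : ℤ) < q := by exact_mod_cast hq
  have hA : (A : ℤ) + 1 - r - 1 = A - r := by ring
  rw [hA]
  by_cases hm : A ≡ r [MOD q]
  · rw [if_pos hm]
    have hm2 : ((A : ℤ) - r) % q = 0 := by
      have := (Nat.modEq_iff_dvd.mp hm.symm)
      exact Int.emod_eq_zero_of_dvd this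
    have hm3 : ((A : ℤ) - r - 1) % q = q - 1 := by
      obtain ⟨k, hk⟩ := Int.dvd_of_emod_eq_zero hm2
      rw [hk]
      have : (q : ℤ) * k - 1 = (q - 1) + q * (k - 1) := by ring
      rw [this, Int.add_mul_emod_self_left]
      exact Int.emod_eq_of_lt (by omega) (by omega)
    rw [hm2, hm3]
    push_cast
    field_simp
    ring
  · rw [if_neg hm]
    have hm2 : ((A : ℤ) - r) % q ≠ 0 := by
      intro h0
      apply hm
      exact (Nat.modEq_iff_dvd.mpr (Int.dvd_of_emod_eq_zero h0)).symm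
    have h2 := Int.emod_nonneg ((A : ℤ) - r) hqz.ne'
    have h3 := Int.emod_lt_of_pos ((A : ℤ) - r) hqz
    have hm3 : ((A : ℤ) - r - 1) % q = ((A : ℤ) - r) % q - 1 := by
      have h4 := Int.emod_add_mul_ediv ((A : ℤ) - r) q
      have : (A : ℤ) - r - 1 = (((A : ℤ) - r) % q - 1) + q * (((A : ℤ) - r) / q) := by linarith
      conv_lhs => rw [this]
      rw [Int.add_mul_emod_self_left]
      exact Int.emod_eq_of_lt (by omega) (by omega)
    rw [hm3]
    push_cast
    field_simp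
    ring

/-- (4) residue classes -/
theorem part4 (hf : S_flip) (ha : S_ar) (habs : S_abs) : ∃ C : ℝ, 0 < C ∧ ∀ N : ℕ, 2 ≤ N →
    ∀ q : ℕ, 1 ≤ q → ∀ r : ℕ,
    |pr N (fun f => area (2 * N) f ≡ r [MOD q]) - 1 / q| ≤ C / Real.sqrt N := by
  obtain ⟨C, hC, h⟩ := part0 hf ha habs
  refine ⟨C, hC, fun N hN q hq r => ?_⟩
  have hq0 : (0 : ℝ) < q := by exact_mod_cast hq
  have hqz : (0 : ℤ) < q := by exact_mod_cast hq
  have h1 := h N hN (fun x => - ((((x - r - 1) % (q : ℤ) : ℤ) : ℝ) / q)) (fun x => by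
    have h2 := Int.emod_nonneg (x - r - 1) hqz.ne'
    have h3 := Int.emod_lt_of_pos (x - r - 1) hqz
    have h4 : (0 : ℝ) ≤ (((x - r - 1) % (q : ℤ) : ℤ) : ℝ) := by exact_mod_cast h2
    have h5 : (((x - r - 1) % (q : ℤ) : ℤ) : ℝ) ≤ q := by exact_mod_cast h3.le
    rw [abs_neg, abs_of_nonneg (by positivity), div_le_one hq0]
    exact h5)
  have hcp := Fin.card_pos hN
  have e : pr N (fun f => area (2 * N) f ≡ r [MOD q]) - 1 / q =
      me N (fun f => (fun x : ℤ => - ((((x - r - 1) % (q : ℤ) : ℤ) : ℝ) / q)) ((area (2 * N) f : ℤ) + 1) -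
        (fun x : ℤ => - ((((x - r - 1) % (q : ℤ) : ℤ) : ℝ) / q)) (area (2 * N) f : ℤ)) := by
    have e1 : (1 : ℝ) / q = me N (fun _ => 1 / (q : ℝ)) := by
      rw [me_eq CONV_proof hN]
      rw [Finset.sum_const, nsmul_eq_mul]
      field_simp
    unfold pr
    rw [e1, me_sub hN, me_eq CONV_proof hN]
    congr 1
    apply Finset.sum_congr rfl
    intro w _
    exact mod_id _ q r hq _
  rw [e]
  exact h1

/-- (2) total variation -/
theorem part2 (hf : S_flip) (ha : S_ar) (habs : S_abs) : ∃ C : ℝ, 0 < C ∧ ∀ N : ℕ, 2 ≤ N →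
    ∑' a : ℕ, |pr N (fun f => area (2 * N) f = a + 1) - pr N (fun f => area (2 * N) f = a)| ≤
      C / Real.sqrt N := by
  obtain ⟨C, hC, h⟩ := part0 hf ha habs
  refine ⟨C, hC, fun N hN => ?_⟩
  refine Real.tsum_le_of_sum_range_le (fun _ => abs_nonneg _) (fun M => ?_)
  obtain ⟨p, hp⟩ : ∃ p : ℕ → ℝ, p = fun a => pr N (fun f => area (2 * N) f = a) := ⟨_, rfl⟩
  have hp1 : ∀ a : ℕ, pr N (fun f => area (2 * N) f = a + 1) = p (a + 1) := fun a => by rw [hp]
  have hp0 : ∀ a : ℕ, pr N (fun f => area (2 * N) f = a) = p a := fun a => by rw [hp]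
  simp only [hp1, hp0]
  obtain ⟨s, hs⟩ : ∃ s : ℕ → ℝ, s = fun a => if 0 ≤ p (a + 1) - p a then 1 else -1 := ⟨_, rfl⟩
  have hs1 : ∀ a, |p (a + 1) - p a| = s a * (p (a + 1) - p a) := by
    intro a
    rw [hs]
    simp only
    split_ifs with h0
    · rw [one_mul, abs_of_nonneg h0]
    · rw [abs_of_neg (not_le.mp h0)]; ring
  have h1 := h N hN (fun x => if 1 ≤ x ∧ x ≤ M then - s (x - 1).toNat else 0) (fun x => by
    rw [hs]
    simp only
    split_ifs <;> simp)
  refine le_trans (le_of_eq ?_) ((le_abs_self _).trans h1)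
  have h2 : ∀ a, p (a + 1) - p a = me N (fun f => (if area (2 * N) f = a + 1 then (1 : ℝ) else 0) -
      (if area (2 * N) f = a then (1 : ℝ) else 0)) := by
    intro a
    rw [hp]
    simp only
    unfold pr
    rw [me_sub hN, me_eq CONV_proof hN]
    congr 1
    apply Finset.sum_congr rfl
    intro w _
    by_cases g1 : area (2 * N) (lp (2 * N) w) = a + 1 <;>
      by_cases g2 : area (2 * N) (lp (2 * N) w) = a <;> simp [g1, g2]
  have hcp := Fin.card_pos hN
  calc ∑ a ∈ range M, |p (a + 1) - p a| = ∑ a ∈ range M, s a * (p (a + 1) - p a) :=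
        Finset.sum_congr rfl (fun a _ => hs1 a)
    _ = ∑ a ∈ range M, (∑ w ∈ KP (2 * N - 1), s a * ((if area (2 * N) (lp (2 * N) w) = a + 1 then (1 : ℝ) else 0) -
          (if area (2 * N) (lp (2 * N) w) = a then (1 : ℝ) else 0))) / ((KP (2 * N - 1)).card : ℝ) := by
        apply Finset.sum_congr rfl
        intro a _
        rw [h2, me_eq CONV_proof hN, ← Finset.mul_sum, mul_div_assoc]
    _ = (∑ w ∈ KP (2 * N - 1), ∑ a ∈ range M, s a * ((if area (2 * N) (lp (2 * N) w) = a + 1 then (1 : ℝ) else 0) -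
          (if area (2 * N) (lp (2 * N) w) = a then (1 : ℝ) else 0))) / ((KP (2 * N - 1)).card : ℝ) := by
        rw [← Finset.sum_div, Finset.sum_comm]
    _ = _ := by
        rw [me_eq CONV_proof hN]
        congr 1
        apply Finset.sum_congr rfl
        intro w _
        generalize area (2 * N) (lp (2 * N) w) = A
        have e1 : ∑ a ∈ range M, s a * ((if A = a + 1 then (1 : ℝ) else 0) - (if A = a then (1 : ℝ) else 0)) =
            (if 1 ≤ A ∧ A ≤ M then s (A - 1) else 0) - (if A < M then s A else 0) := by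
          simp only [mul_sub, Finset.sum_sub_distrib, mul_ite, mul_one, mul_zero]
          congr 1
          · by_cases hA : 1 ≤ A ∧ A ≤ M
            · rw [if_pos hA, Finset.sum_eq_single (A - 1)]
              · rw [if_pos (by omega)]
              · intro b _ hb
                rw [if_neg (by omega)]
              · intro hb
                exfalso
                apply hb
                rw [mem_range]; omega
            · rw [if_neg hA]
              apply Finset.sum_eq_zero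
              intro b hb
              rw [mem_range] at hb
              rw [if_neg (by omega)]
          · by_cases hA : A < M
            · rw [if_pos hA, Finset.sum_eq_single A]
              · rw [if_pos rfl]
              · intro b _ hb
                rw [if_neg (by omega)]
              · intro hb
                exfalso
                apply hb
                rw [mem_range]; omega
            · rw [if_neg hA]
              apply Finset.sum_eq_zero
              intro b hb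
              rw [mem_range] at hb
              rw [if_neg (by omega)]
        rw [e1]
        have e2 : (if 1 ≤ (A : ℤ) + 1 ∧ (A : ℤ) + 1 ≤ M then - s ((A : ℤ) + 1 - 1).toNat else 0) =
            - (if A < M then s A else 0) := by
          by_cases hA : A < M
          · rw [if_pos hA, if_pos (by omega)]
            congr 2
            omega
          · rw [if_neg hA, if_neg (by omega), neg_zero]
        have e3 : (if 1 ≤ (A : ℤ) ∧ (A : ℤ) ≤ M then - s ((A : ℤ) - 1).toNat else 0) =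
            - (if 1 ≤ A ∧ A ≤ M then s (A - 1) else 0) := by
          by_cases hA : 1 ≤ A ∧ A ≤ M
          · rw [if_pos hA, if_pos (by omega)]
            congr 2
            omega
          · rw [if_neg hA, if_neg (by omega), neg_zero]
        rw [e2, e3]
        ring

lemma frc_ge {N : ℕ} (hN : 2 ≤ N) {w : List Dir} (hw : w ∈ KP (2 * N - 1)) :
    (fc w).card ≤ frc N (lp (2 * N) w) := by
  obtain ⟨hl, hs, hq⟩ := Fin.mem_KP.mp hw
  have : NeZero (2 * N) := ⟨by omega⟩
  unfold frc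
  rw [Nat.card_eq_fintype_card, Fintype.card_subtype]
  have hlp : ∀ i : ℕ, i ≤ w.length → lp (2 * N) w ((i : ℕ) : ZMod (2 * N)) = PP w i := by
    intro i hi
    unfold H739K.lp PP
    rw [ZMod.val_natCast_of_lt (by omega)]
  have hfc : ∀ i ∈ fc w, i + 1 < w.length ∧ ¬ vis w (fv w i) := by
    intro i hi
    unfold fc at hi
    rw [Finset.mem_filter] at hi
    exact ⟨hi.2.1, hi.2.2.2⟩
  refine Finset.card_le_card_of_injOn (fun i => (((i + 1 : ℕ)) : ZMod (2 * N))) ?_ ?_
  · intro i hi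
    rw [Finset.mem_coe] at hi
    obtain ⟨h1, h2⟩ := hfc i hi
    simp only [Finset.coe_filter, Finset.mem_univ, true_and, Set.mem_setOf_eq]
    intro j hj
    apply h2
    have e1 : (((i + 1 : ℕ)) : ZMod (2 * N)) - 1 = ((i : ℕ) : ZMod (2 * N)) := by push_cast; ring
    have e2 : (((i + 1 : ℕ)) : ZMod (2 * N)) + 1 = ((i + 2 : ℕ) : ZMod (2 * N)) := by push_cast; ring
    rw [e1, e2, hlp i (by omega), hlp (i + 1) (by omega), hlp (i + 2) (by omega)] at hj
    have e3 : PP w i + PP w (i + 2) - PP w (i + 1) = fv w i := by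
      rw [PP_succ w (i + 1) h1]
      unfold fv
      abel
    rw [e3] at hj
    rw [← hj]
    exact ⟨w.take j.val, w.drop j.val, (List.take_append_drop _ w).symm, rfl, rfl⟩
  · intro i hi j hj hij
    rw [Finset.mem_coe] at hi hj
    obtain ⟨h1, _⟩ := hfc i hi
    obtain ⟨h3, _⟩ := hfc j hj
    have h5 := congrArg ZMod.val hij
    simp only at h5
    rw [ZMod.val_natCast_of_lt (by omega), ZMod.val_natCast_of_lt (by omega)] at h5
    omega

/-- (5) the pattern theorem for free corners -/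
theorem part5 : ∃ C c : ℝ, 0 < C ∧ 0 < c ∧ ∀ N : ℕ, 2 ≤ N →
    pr N (fun f => (frc N f : ℝ) < N / 40) ≤ C * Real.exp (-(c * N)) := by
  obtain ⟨C, c, hC, hc, h⟩ := Fin.few_exp
  refine ⟨C, c, hC, hc, fun N hN => ?_⟩
  have hNr : (2 : ℝ) ≤ N := by exact_mod_cast hN
  have hcp := Fin.card_pos hN
  have hcast : ((2 * N - 1 : ℕ) : ℝ) = 2 * N - 1 := by
    rw [Nat.cast_sub (by omega)]; push_cast; ring
  unfold pr
  rw [me_eq CONV_proof hN, div_le_iff₀ hcp]
  have h1 : ∑ w ∈ KP (2 * N - 1), (if (frc N (lp (2 * N) w) : ℝ) < N / 40 then (1 : ℝ) else 0) ≤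
      ((fewc (2 * N - 1)).card : ℝ) := by
    rw [← Finset.sum_filter, Finset.sum_const, nsmul_eq_mul, mul_one]
    have : (KP (2 * N - 1)).filter (fun w => (frc N (lp (2 * N) w) : ℝ) < N / 40) ⊆ fewc (2 * N - 1) := by
      intro w hw
      rw [Finset.mem_filter] at hw
      unfold fewc
      rw [Finset.mem_filter]
      refine ⟨(Finset.mem_filter.mp hw.1).1, ?_⟩
      have h2 : ((fc w).card : ℝ) ≤ frc N (lp (2 * N) w) := by exact_mod_cast frc_ge hN hw.1
      have h3 := hw.2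
      rw [hcast]
      linarith
    exact_mod_cast Finset.card_le_card this
  refine h1.trans ((h (2 * N - 1) (by omega) (by omega)).trans ?_)
  apply mul_le_mul_of_nonneg_right _ hcp.le
  apply mul_le_mul_of_nonneg_left _ hC.le
  apply Real.exp_le_exp.mpr
  rw [hcast]
  nlinarith

/-- everything together -/
theorem all (hf : S_flip) (ha : S_ar) (habs : S_abs) : ∃ C c : ℝ, 0 < C ∧ 0 < c ∧
    ∀ N : ℕ, 2 ≤ N →
    (∀ (g : ℤ → ℝ) (F : (ZMod (2 * N) → ℤ × ℤ) → ℝ) (δ : ℝ), (∀ a, |g a| ≤ 1) →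
      (∀ f, IsLoop (2 * N) f → |F f| ≤ 1) →
      (∀ f f' : ZMod (2 * N) → ℤ × ℤ, IsLoop (2 * N) f → IsLoop (2 * N) f' →
        (∃ k, ∀ j, j ≠ k → f j = f' j) → |F f - F f'| ≤ δ) →
      |me N (fun f => F f * g ((area (2 * N) f : ℤ) + 1)) -
        me N (fun f => F f * g (area (2 * N) f : ℤ))| ≤ C * (δ + 1 / Real.sqrt N)) ∧
    (∑' a : ℕ, |pr N (fun f => area (2 * N) f = a + 1) - pr N (fun f => area (2 * N) f = a)| ≤
      C / Real.sqrt N) ∧
    (∀ a : ℕ, pr N (fun f => area (2 * N) f = a) ≤ C / Real.sqrt N) ∧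
    (∀ q : ℕ, 1 ≤ q → ∀ r : ℕ,
      |pr N (fun f => area (2 * N) f ≡ r [MOD q]) - 1 / q| ≤ C / Real.sqrt N) ∧
    pr N (fun f => (frc N f : ℝ) < N / 40) ≤ C * Real.exp (-(c * N)) := by
  obtain ⟨C1, hC1, h1⟩ := part1 hf ha habs
  obtain ⟨C2, hC2, h2⟩ := part2 hf ha habs
  obtain ⟨C3, hC3, h3⟩ := part3 hf ha habs
  obtain ⟨C4, hC4, h4⟩ := part4 hf ha habs
  obtain ⟨C5, c, hC5, hc, h5⟩ := part5
  have hcp : ∀ {N : ℕ}, 2 ≤ N → ∀ {D : ℝ}, D ≤ C1 + C2 + C3 + C4 + C5 →
      D / Real.sqrt N ≤ (C1 + C2 + C3 + C4 + C5) / Real.sqrt N := by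
    intro N hN D hD
    exact div_le_div_of_nonneg_right hD (Real.sqrt_nonneg _)
  refine ⟨C1 + C2 + C3 + C4 + C5, c, by positivity, hc, fun N hN => ⟨?_, ?_, ?_, ?_, ?_⟩⟩
  · intro g F δ hg hF hFδ
    have h := h1 N hN g F δ hg hF hFδ
    have hnn : 0 ≤ δ + 1 / Real.sqrt N := by
      have := (abs_nonneg _).trans h
      by_contra hcon
      push Not at hcon
      have : C1 * (δ + 1 / Real.sqrt N) < 0 := mul_neg_of_pos_of_neg hC1 hcon
      linarith
    refine h.trans (mul_le_mul_of_nonneg_right (by linarith) hnn)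
  · exact (h2 N hN).trans (hcp hN (by linarith))
  · exact fun a => (h3 N hN a).trans (hcp hN (by linarith))
  · exact fun q hq r => (h4 N hN q hq r).trans (hcp hN (by linarith))
  · exact (h5 N hN).trans (mul_le_mul_of_nonneg_right (by linarith) (Real.exp_pos _).le)

end Final

end

end Pool.Agent.R54.AS
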