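import Mathlib

/-!
# The abstract smoothing lemma (project AS, MP_f6626d_co), pure finite sums
-/

set_option autoImplicit false

namespace Pool.Agent.R54.AS.AbsAux

open Finset

noncomputable section

variable {α : Type} (Ω : Finset α) (I : α → Finset ℕ) (s : α → ℕ → α)

/-- change of variables by the involution `(w, i) ↦ (s w i, i)` -/
theorem cov (h1 : ∀ w ∈ Ω, ∀ i ∈ I w, s w i ∈ Ω ∧ i ∈ I (s w i) ∧ s (s w i) i = w)
    (f : α → ℕ → ℝ) :
    ∑ w ∈ Ω, ∑ i ∈ I w, f w i = ∑ w ∈ Ω, ∑ i ∈ I w, f (s w i) i := by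
  rw [Finset.sum_sigma', Finset.sum_sigma']
  refine Finset.sum_nbij' (fun p => ⟨s p.1 p.2, p.2⟩) (fun p => ⟨s p.1 p.2, p.2⟩) ?_ ?_ ?_ ?_ ?_
  · rintro ⟨w, i⟩ h
    rw [Finset.mem_sigma] at h ⊢
    exact ⟨(h1 w h.1 i h.2).1, (h1 w h.1 i h.2).2.1⟩
  · rintro ⟨w, i⟩ h
    rw [Finset.mem_sigma] at h ⊢
    exact ⟨(h1 w h.1 i h.2).1, (h1 w h.1 i h.2).2.1⟩
  · rintro ⟨w, i⟩ h
    rw [Finset.mem_sigma] at h
    simp only [(h1 w h.1 i h.2).2.2]
  · rintro ⟨w, i⟩ h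
    rw [Finset.mem_sigma] at h
    simp only [(h1 w h.1 i h.2).2.2]
  · rintro ⟨w, i⟩ h
    rw [Finset.mem_sigma] at h
    simp only [(h1 w h.1 i h.2).2.2]

/-- the sign of the move, as a real number -/
def sig (A : α → ℤ) (w : α) (i : ℕ) : ℝ := (A (s w i) : ℝ) - A w

variable {Ω I s}
variable {R : α → ℕ → Finset ℕ} {A : α → ℤ} {F : α → ℝ} {g : ℤ → ℝ} {n k : ℕ} {ε δ : ℝ}

theorem sig_or
    (h5 : ∀ w ∈ Ω, ∀ i ∈ I w, A (s w i) = A w + 1 ∨ A (s w i) = A w - 1)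
    {w : α} (hw : w ∈ Ω) {i : ℕ} (hi : i ∈ I w) : sig s A w i = 1 ∨ sig s A w i = -1 := by
  unfold sig
  rcases h5 w hw i hi with h | h
  · left; rw [h]; push_cast; ring
  · right; rw [h]; push_cast; ring

theorem sig_flip
    (h1 : ∀ w ∈ Ω, ∀ i ∈ I w, s w i ∈ Ω ∧ i ∈ I (s w i) ∧ s (s w i) i = w)
    {w : α} (hw : w ∈ Ω) {i : ℕ} (hi : i ∈ I w) : sig s A (s w i) i = - sig s A w i := by
  unfold sig
  rw [(h1 w hw i hi).2.2]; ring

theorem sig_far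
    (h6 : ∀ w ∈ Ω, ∀ i ∈ I w, ∀ j ∈ I w, j ∉ R w i →
      A (s (s w i) j) - A (s w i) = A (s w j) - A w)
    {w : α} (hw : w ∈ Ω) {i : ℕ} (hi : i ∈ I w) {j : ℕ} (hj : j ∈ I w) (hji : j ∉ R w i) :
    sig s A (s w i) j = sig s A w j := by
  unfold sig
  have := h6 w hw i hi j hj hji
  have h2 : (((A (s (s w i) j) - A (s w i) : ℤ)) : ℝ) = ((A (s w j) - A w : ℤ) : ℝ) := by
    rw [this]
  push_cast at h2
  exact h2

/-- the far sets agree -/
theorem far_eq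
    (h1 : ∀ w ∈ Ω, ∀ i ∈ I w, s w i ∈ Ω ∧ i ∈ I (s w i) ∧ s (s w i) i = w)
    (h4 : ∀ w ∈ Ω, ∀ i ∈ I w, ∀ j ∈ I w, j ∉ R w i → j ∈ I (s w i) ∧ j ∉ R (s w i) i)
    {w : α} (hw : w ∈ Ω) {i : ℕ} (hi : i ∈ I w) :
    I (s w i) \ R (s w i) i = I w \ R w i := by
  obtain ⟨ha, hb, hc⟩ := h1 w hw i hi
  ext j
  rw [Finset.mem_sdiff, Finset.mem_sdiff]
  constructor
  · rintro ⟨h, h'⟩
    have := h4 (s w i) ha i hb j h h'
    rwa [hc] at this
  · rintro ⟨h, h'⟩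
    exact h4 w hw i hi j h h'

/-- the number of moves changes by at most `k` -/
theorem card_le
    (h1 : ∀ w ∈ Ω, ∀ i ∈ I w, s w i ∈ Ω ∧ i ∈ I (s w i) ∧ s (s w i) i = w)
    (h2 : ∀ w ∈ Ω, ∀ i ∈ I w, i ∈ R w i ∧ R w i ⊆ I w ∧ (R w i).card ≤ k)
    (h4 : ∀ w ∈ Ω, ∀ i ∈ I w, ∀ j ∈ I w, j ∉ R w i → j ∈ I (s w i) ∧ j ∉ R (s w i) i)
    {w : α} (hw : w ∈ Ω) {i : ℕ} (hi : i ∈ I w) :
    (I w).card ≤ (I (s w i)).card + k := by
  have hsub : I w \ R w i ⊆ I (s w i) := by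
    intro j hj
    rw [Finset.mem_sdiff] at hj
    exact (h4 w hw i hi j hj.1 hj.2).1
  have e1 := Finset.card_le_card hsub
  have e2 := Finset.card_sdiff_add_card_eq_card (h2 w hw i hi).2.1
  have e3 := (h2 w hw i hi).2.2
  omega

theorem card_abs
    (h1 : ∀ w ∈ Ω, ∀ i ∈ I w, s w i ∈ Ω ∧ i ∈ I (s w i) ∧ s (s w i) i = w)
    (h2 : ∀ w ∈ Ω, ∀ i ∈ I w, i ∈ R w i ∧ R w i ⊆ I w ∧ (R w i).card ≤ k)
    (h4 : ∀ w ∈ Ω, ∀ i ∈ I w, ∀ j ∈ I w, j ∉ R w i → j ∈ I (s w i) ∧ j ∉ R (s w i) i)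
    {w : α} (hw : w ∈ Ω) {i : ℕ} (hi : i ∈ I w) :
    |((I (s w i)).card : ℝ) - (I w).card| ≤ k := by
  have e1 := card_le h1 h2 h4 hw hi
  obtain ⟨ha, hb, hc⟩ := h1 w hw i hi
  have e2 := card_le h1 h2 h4 ha hb
  rw [hc] at e2
  rw [abs_le]
  constructor
  · have : ((I w).card : ℝ) ≤ (I (s w i)).card + k := by exact_mod_cast e1
    linarith
  · have : ((I (s w i)).card : ℝ) ≤ (I w).card + k := by exact_mod_cast e2
    linarith

/-- the normalisation -/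
def Mx (I : α → Finset ℕ) (ε : ℝ) (n : ℕ) (w : α) : ℝ := max ((I w).card : ℝ) (ε * n)

theorem Mx_abs
    (h1 : ∀ w ∈ Ω, ∀ i ∈ I w, s w i ∈ Ω ∧ i ∈ I (s w i) ∧ s (s w i) i = w)
    (h2 : ∀ w ∈ Ω, ∀ i ∈ I w, i ∈ R w i ∧ R w i ⊆ I w ∧ (R w i).card ≤ k)
    (h4 : ∀ w ∈ Ω, ∀ i ∈ I w, ∀ j ∈ I w, j ∉ R w i → j ∈ I (s w i) ∧ j ∉ R (s w i) i)
    {w : α} (hw : w ∈ Ω) {i : ℕ} (hi : i ∈ I w) :
    |Mx I ε n (s w i) - Mx I ε n w| ≤ k := by
  have h := card_abs h1 h2 h4 hw hi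
  unfold Mx
  exact (abs_max_sub_max_le_abs _ _ _).trans h

/-- the second moment of the drift -/
theorem sq_sum
    (h0 : ∀ w ∈ Ω, (I w).card ≤ n)
    (h1 : ∀ w ∈ Ω, ∀ i ∈ I w, s w i ∈ Ω ∧ i ∈ I (s w i) ∧ s (s w i) i = w)
    (h2 : ∀ w ∈ Ω, ∀ i ∈ I w, i ∈ R w i ∧ R w i ⊆ I w ∧ (R w i).card ≤ k)
    (h4 : ∀ w ∈ Ω, ∀ i ∈ I w, ∀ j ∈ I w, j ∉ R w i → j ∈ I (s w i) ∧ j ∉ R (s w i) i)
    (h5 : ∀ w ∈ Ω, ∀ i ∈ I w, A (s w i) = A w + 1 ∨ A (s w i) = A w - 1)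
    (h6 : ∀ w ∈ Ω, ∀ i ∈ I w, ∀ j ∈ I w, j ∉ R w i →
      A (s (s w i) j) - A (s w i) = A (s w j) - A w) :
    ∑ w ∈ Ω, (∑ i ∈ I w, sig s A w i) ^ 2 ≤ (Ω.card : ℝ) * (n * k) := by
  have key : ∑ w ∈ Ω, ∑ i ∈ I w, ∑ j ∈ I w \ R w i, sig s A w i * sig s A w j = 0 := by
    have e : ∑ w ∈ Ω, ∑ i ∈ I w, ∑ j ∈ I w \ R w i, sig s A w i * sig s A w j =
        ∑ w ∈ Ω, ∑ i ∈ I w, ∑ j ∈ I (s w i) \ R (s w i) i,
        sig s A (s w i) i * sig s A (s w i) j :=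
      cov Ω I s h1 (fun w i => ∑ j ∈ I w \ R w i, sig s A w i * sig s A w j)
    have e2 : ∑ w ∈ Ω, ∑ i ∈ I w, ∑ j ∈ I (s w i) \ R (s w i) i,
        sig s A (s w i) i * sig s A (s w i) j =
        - ∑ w ∈ Ω, ∑ i ∈ I w, ∑ j ∈ I w \ R w i, sig s A w i * sig s A w j := by
      rw [← Finset.sum_neg_distrib]
      refine Finset.sum_congr rfl fun w hw => ?_
      rw [← Finset.sum_neg_distrib]
      refine Finset.sum_congr rfl fun i hi => ?_
      rw [far_eq h1 h4 hw hi, ← Finset.sum_neg_distrib]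
      refine Finset.sum_congr rfl fun j hj => ?_
      rw [Finset.mem_sdiff] at hj
      rw [sig_flip h1 hw hi, sig_far h6 hw hi hj.1 hj.2]
      ring
    rw [e2] at e
    linarith
  have split : ∀ w ∈ Ω, (∑ i ∈ I w, sig s A w i) ^ 2 =
      ∑ i ∈ I w, ∑ j ∈ R w i, sig s A w i * sig s A w j +
      ∑ i ∈ I w, ∑ j ∈ I w \ R w i, sig s A w i * sig s A w j := by
    intro w hw
    rw [pow_two, Finset.sum_mul_sum, ← Finset.sum_add_distrib]
    refine Finset.sum_congr rfl fun i hi => ?_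
    rw [add_comm]
    exact (Finset.sum_sdiff (h2 w hw i hi).2.1).symm
  rw [Finset.sum_congr rfl split, Finset.sum_add_distrib, key, add_zero]
  have b : ∀ w ∈ Ω, ∑ i ∈ I w, ∑ j ∈ R w i, sig s A w i * sig s A w j ≤ (n : ℝ) * k := by
    intro w hw
    have b1 : ∀ i ∈ I w, ∑ j ∈ R w i, sig s A w i * sig s A w j ≤ (k : ℝ) := by
      intro i hi
      have b2 : ∑ j ∈ R w i, sig s A w i * sig s A w j ≤ ∑ j ∈ R w i, (1 : ℝ) := by
        refine Finset.sum_le_sum fun j hj => ?_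
        rcases sig_or h5 hw hi with h | h <;>
        rcases sig_or h5 hw ((h2 w hw i hi).2.1 hj) with h' | h' <;> rw [h, h'] <;> norm_num
      rw [Finset.sum_const, nsmul_eq_mul, mul_one] at b2
      exact b2.trans (by exact_mod_cast (h2 w hw i hi).2.2)
    calc ∑ i ∈ I w, ∑ j ∈ R w i, sig s A w i * sig s A w j ≤ ∑ i ∈ I w, (k : ℝ) :=
          Finset.sum_le_sum b1
      _ = ((I w).card : ℝ) * k := by rw [Finset.sum_const, nsmul_eq_mul]
      _ ≤ n * k := by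
          refine mul_le_mul_of_nonneg_right ?_ (Nat.cast_nonneg k)
          exact_mod_cast h0 w hw
  calc ∑ w ∈ Ω, ∑ i ∈ I w, ∑ j ∈ R w i, sig s A w i * sig s A w j ≤ ∑ w ∈ Ω, (n : ℝ) * k :=
        Finset.sum_le_sum b
    _ = _ := by rw [Finset.sum_const, nsmul_eq_mul]

/-- the first moment of the drift -/
theorem abs_sum
    (h0 : ∀ w ∈ Ω, (I w).card ≤ n)
    (h1 : ∀ w ∈ Ω, ∀ i ∈ I w, s w i ∈ Ω ∧ i ∈ I (s w i) ∧ s (s w i) i = w)
    (h2 : ∀ w ∈ Ω, ∀ i ∈ I w, i ∈ R w i ∧ R w i ⊆ I w ∧ (R w i).card ≤ k)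
    (h4 : ∀ w ∈ Ω, ∀ i ∈ I w, ∀ j ∈ I w, j ∉ R w i → j ∈ I (s w i) ∧ j ∉ R (s w i) i)
    (h5 : ∀ w ∈ Ω, ∀ i ∈ I w, A (s w i) = A w + 1 ∨ A (s w i) = A w - 1)
    (h6 : ∀ w ∈ Ω, ∀ i ∈ I w, ∀ j ∈ I w, j ∉ R w i →
      A (s (s w i) j) - A (s w i) = A (s w j) - A w) :
    ∑ w ∈ Ω, |∑ i ∈ I w, sig s A w i| ≤ (Ω.card : ℝ) * Real.sqrt (n * k) := by
  have h := sq_sum h0 h1 h2 h4 h5 h6
  have cs : (∑ w ∈ Ω, |∑ i ∈ I w, sig s A w i|) ^ 2 ≤
      (Ω.card : ℝ) * ∑ w ∈ Ω, (∑ i ∈ I w, sig s A w i) ^ 2 := by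
    have := sq_sum_le_card_mul_sum_sq (s := Ω) (f := fun w => |∑ i ∈ I w, sig s A w i|)
    simpa only [sq_abs] using this
  have hc : (0 : ℝ) ≤ Ω.card := Nat.cast_nonneg _
  have h3 : (∑ w ∈ Ω, |∑ i ∈ I w, sig s A w i|) ^ 2 ≤ ((Ω.card : ℝ) * Real.sqrt (n * k)) ^ 2 := by
    rw [mul_pow, Real.sq_sqrt (by positivity)]
    calc _ ≤ _ := cs
      _ ≤ (Ω.card : ℝ) * ((Ω.card : ℝ) * (n * k)) := mul_le_mul_of_nonneg_left h hc
      _ = _ := by ring
  exact le_of_sq_le_sq h3 (by positivity)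

/-- the change of variables estimate -/
theorem flow
    (hn : 1 ≤ n) (hε : 0 < ε) (hδ : 0 ≤ δ)
    (h1 : ∀ w ∈ Ω, ∀ i ∈ I w, s w i ∈ Ω ∧ i ∈ I (s w i) ∧ s (s w i) i = w)
    (h2 : ∀ w ∈ Ω, ∀ i ∈ I w, i ∈ R w i ∧ R w i ⊆ I w ∧ (R w i).card ≤ k)
    (h4 : ∀ w ∈ Ω, ∀ i ∈ I w, ∀ j ∈ I w, j ∉ R w i → j ∈ I (s w i) ∧ j ∉ R (s w i) i)
    (h5 : ∀ w ∈ Ω, ∀ i ∈ I w, A (s w i) = A w + 1 ∨ A (s w i) = A w - 1)
    (hF : ∀ w ∈ Ω, |F w| ≤ 1) (hF2 : ∀ w ∈ Ω, ∀ i ∈ I w, |F (s w i) - F w| ≤ δ)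
    (hg : ∀ a, |g a| ≤ 1) :
    |∑ w ∈ Ω, F w * g (A w + 1) * (∑ i ∈ I w, (1 + sig s A w i) / 2) / Mx I ε n w -
      ∑ w ∈ Ω, F w * g (A w) * (∑ i ∈ I w, (1 - sig s A w i) / 2) / Mx I ε n w| ≤
      (Ω.card : ℝ) * (δ + k / (ε * n)) := by
  have hn' : (0 : ℝ) < n := by exact_mod_cast hn
  have hen : 0 < ε * n := mul_pos hε hn'
  have hM : ∀ w, 0 < Mx I ε n w := fun w => lt_of_lt_of_le hen (le_max_right _ _)
  have hM2 : ∀ w, ε * n ≤ Mx I ε n w := fun w => le_max_right _ _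
  have hNM : ∀ w, ((I w).card : ℝ) ≤ Mx I ε n w := fun w => le_max_left _ _
  have e1 : ∑ w ∈ Ω, F w * g (A w + 1) * (∑ i ∈ I w, (1 + sig s A w i) / 2) / Mx I ε n w =
      ∑ w ∈ Ω, ∑ i ∈ I w, F w * g (A w + 1) * ((1 + sig s A w i) / 2) / Mx I ε n w := by
    refine Finset.sum_congr rfl fun w _ => ?_
    rw [Finset.mul_sum, Finset.sum_div]
  have e2 : ∑ w ∈ Ω, F w * g (A w) * (∑ i ∈ I w, (1 - sig s A w i) / 2) / Mx I ε n w =
      ∑ w ∈ Ω, ∑ i ∈ I w, F w * g (A w) * ((1 - sig s A w i) / 2) / Mx I ε n w := by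
    refine Finset.sum_congr rfl fun w _ => ?_
    rw [Finset.mul_sum, Finset.sum_div]
  have e3 : ∑ w ∈ Ω, ∑ i ∈ I w, F w * g (A w + 1) * ((1 + sig s A w i) / 2) / Mx I ε n w =
      ∑ w ∈ Ω, ∑ i ∈ I w, F (s w i) * g (A (s w i) + 1) *
        ((1 + sig s A (s w i) i) / 2) / Mx I ε n (s w i) :=
    cov Ω I s h1 (fun w i => F w * g (A w + 1) * ((1 + sig s A w i) / 2) / Mx I ε n w)
  rw [e1, e2, e3, ← Finset.sum_sub_distrib]
  have hterm : ∀ w ∈ Ω, |(∑ i ∈ I w, F (s w i) * g (A (s w i) + 1) *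
        ((1 + sig s A (s w i) i) / 2) / Mx I ε n (s w i)) -
        ∑ i ∈ I w, F w * g (A w) * ((1 - sig s A w i) / 2) / Mx I ε n w| ≤
        δ + k / (ε * n) := by
    intro w hw
    rw [← Finset.sum_sub_distrib]
    have hi : ∀ i ∈ I w, |F (s w i) * g (A (s w i) + 1) *
        ((1 + sig s A (s w i) i) / 2) / Mx I ε n (s w i) -
        F w * g (A w) * ((1 - sig s A w i) / 2) / Mx I ε n w| ≤
        (δ + k / (ε * n)) / Mx I ε n w := by
      intro i hi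
      obtain ⟨ha, hb, hc⟩ := h1 w hw i hi
      rw [sig_flip h1 hw hi]
      rcases h5 w hw i hi with h | h
      · have hs : sig s A w i = 1 := by unfold sig; rw [h]; push_cast; ring
        rw [hs]
        have : |F (s w i) * g (A (s w i) + 1) * ((1 + -1) / 2) / Mx I ε n (s w i) -
          F w * g (A w) * ((1 - 1) / 2) / Mx I ε n w| = 0 := by norm_num
        rw [this]
        have := hM w
        positivity
      · have hs : sig s A w i = -1 := by unfold sig; rw [h]; push_cast; ring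
        have hA : A (s w i) + 1 = A w := by rw [h]; ring
        rw [hs, hA]
        have eq : F (s w i) * g (A w) * ((1 + - -1) / 2) / Mx I ε n (s w i) -
          F w * g (A w) * ((1 - -1) / 2) / Mx I ε n w =
          g (A w) * ((F (s w i) - F w) / Mx I ε n w +
            F (s w i) * ((Mx I ε n w - Mx I ε n (s w i)) /
              (Mx I ε n w * Mx I ε n (s w i)))) := by
          have m1 := (hM w).ne'
          have m2 := (hM (s w i)).ne'
          field_simp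
          ring
        rw [eq, abs_mul]
        have t1 : |(F (s w i) - F w) / Mx I ε n w| ≤ δ / Mx I ε n w := by
          rw [abs_div, abs_of_pos (hM w)]
          exact div_le_div_of_nonneg_right (hF2 w hw i hi) (hM w).le
        have t2 : |F (s w i) * ((Mx I ε n w - Mx I ε n (s w i)) /
              (Mx I ε n w * Mx I ε n (s w i)))| ≤ k / (ε * n) / Mx I ε n w := by
          rw [abs_mul, abs_div, abs_of_pos (mul_pos (hM w) (hM (s w i)))]
          have a1 : |Mx I ε n w - Mx I ε n (s w i)| ≤ k := by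
            rw [abs_sub_comm]
            exact Mx_abs h1 h2 h4 hw hi
          have a2 : |Mx I ε n w - Mx I ε n (s w i)| / (Mx I ε n w * Mx I ε n (s w i)) ≤
              k / (ε * n) / Mx I ε n w := by
            rw [div_div]
            refine div_le_div₀ (Nat.cast_nonneg k) a1 (mul_pos hen (hM w)) ?_
            rw [mul_comm]
            exact mul_le_mul_of_nonneg_left (hM2 _) (hM w).le
          calc |F (s w i)| * (|Mx I ε n w - Mx I ε n (s w i)| /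
                (Mx I ε n w * Mx I ε n (s w i))) ≤ 1 * (k / (ε * n) / Mx I ε n w) := by
                refine mul_le_mul (hF _ ha) a2 ?_ zero_le_one
                have := hM w
                have := hM (s w i)
                positivity
            _ = _ := one_mul _
        calc |g (A w)| * |(F (s w i) - F w) / Mx I ε n w +
            F (s w i) * ((Mx I ε n w - Mx I ε n (s w i)) /
              (Mx I ε n w * Mx I ε n (s w i)))| ≤ 1 * (δ / Mx I ε n w +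
              k / (ε * n) / Mx I ε n w) := by
              refine mul_le_mul (hg _) ((abs_add_le _ _).trans (add_le_add t1 t2))
                (abs_nonneg _) zero_le_one
          _ = _ := by rw [one_mul, add_div]
    calc |∑ i ∈ I w, (F (s w i) * g (A (s w i) + 1) *
        ((1 + sig s A (s w i) i) / 2) / Mx I ε n (s w i) -
        F w * g (A w) * ((1 - sig s A w i) / 2) / Mx I ε n w)| ≤
        ∑ i ∈ I w, (δ + k / (ε * n)) / Mx I ε n w :=
          (Finset.abs_sum_le_sum_abs _ _).trans (Finset.sum_le_sum hi)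
      _ = (I w).card * ((δ + k / (ε * n)) / Mx I ε n w) := by
          rw [Finset.sum_const, nsmul_eq_mul]
      _ = ((I w).card / Mx I ε n w) * (δ + k / (ε * n)) := by ring
      _ ≤ 1 * (δ + k / (ε * n)) := by
          refine mul_le_mul_of_nonneg_right ?_ (by positivity)
          rw [div_le_one (hM w)]
          exact hNM w
      _ = _ := one_mul _
  calc _ ≤ ∑ w ∈ Ω, (δ + k / (ε * n)) :=
        (Finset.abs_sum_le_sum_abs _ _).trans (Finset.sum_le_sum hterm)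
    _ = _ := by rw [Finset.sum_const, nsmul_eq_mul]

/-- the abstract smoothing lemma -/
theorem main [DecidablePred (fun w : α => ((I w).card : ℝ) < ε * n)]
    (hn : 1 ≤ n) (hε : 0 < ε) (hδ : 0 ≤ δ)
    (h0 : ∀ w ∈ Ω, (I w).card ≤ n)
    (h1 : ∀ w ∈ Ω, ∀ i ∈ I w, s w i ∈ Ω ∧ i ∈ I (s w i) ∧ s (s w i) i = w)
    (h2 : ∀ w ∈ Ω, ∀ i ∈ I w, i ∈ R w i ∧ R w i ⊆ I w ∧ (R w i).card ≤ k)
    (h4 : ∀ w ∈ Ω, ∀ i ∈ I w, ∀ j ∈ I w, j ∉ R w i → j ∈ I (s w i) ∧ j ∉ R (s w i) i)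
    (h5 : ∀ w ∈ Ω, ∀ i ∈ I w, A (s w i) = A w + 1 ∨ A (s w i) = A w - 1)
    (h6 : ∀ w ∈ Ω, ∀ i ∈ I w, ∀ j ∈ I w, j ∉ R w i →
      A (s (s w i) j) - A (s w i) = A (s w j) - A w)
    (hF : ∀ w ∈ Ω, |F w| ≤ 1) (hF2 : ∀ w ∈ Ω, ∀ i ∈ I w, |F (s w i) - F w| ≤ δ)
    (hg : ∀ a, |g a| ≤ 1) :
    |∑ w ∈ Ω, F w * (g (A w + 1) - g (A w))| ≤
    (Ω.card : ℝ) * (2 * δ + 2 * k / (ε * n) + 2 * Real.sqrt k / (ε * Real.sqrt n)) +
      4 * ((Ω.filter (fun w => ((I w).card : ℝ) < ε * n)).card : ℝ) := by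
  have hn' : (0 : ℝ) < n := by exact_mod_cast hn
  have hen : 0 < ε * n := mul_pos hε hn'
  have hM : ∀ w, 0 < Mx I ε n w := fun w => lt_of_lt_of_le hen (le_max_right _ _)
  have hM2 : ∀ w, ε * n ≤ Mx I ε n w := fun w => le_max_right _ _
  have hNM : ∀ w, ((I w).card : ℝ) ≤ Mx I ε n w := fun w => le_max_left _ _
  set D : α → ℝ := fun w => ∑ i ∈ I w, (1 + sig s A w i) / 2 with hD
  set U : α → ℝ := fun w => ∑ i ∈ I w, (1 - sig s A w i) / 2 with hU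
  set S : α → ℝ := fun w => ∑ i ∈ I w, sig s A w i with hS
  set b : α → ℝ := fun w => if ((I w).card : ℝ) < ε * n then 1 else 0 with hb
  have hDU : ∀ w, D w + U w = (I w).card := by
    intro w
    rw [hD, hU]
    simp only []
    rw [← Finset.sum_add_distrib]
    have : ∀ i ∈ I w, (1 + sig s A w i) / 2 + (1 - sig s A w i) / 2 = 1 := by
      intro i _; ring
    rw [Finset.sum_congr rfl this, Finset.sum_const, nsmul_eq_mul, mul_one]
  have hDS : ∀ w, D w - U w = S w := by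
    intro w
    rw [hD, hU, hS]
    simp only []
    rw [← Finset.sum_sub_distrib]
    refine Finset.sum_congr rfl fun i _ => ?_
    ring
  have hD0 : ∀ w ∈ Ω, 0 ≤ D w := by
    intro w hw
    refine Finset.sum_nonneg fun i hi => ?_
    rcases sig_or h5 hw hi with h | h <;> rw [h] <;> norm_num
  have hU0 : ∀ w ∈ Ω, 0 ≤ U w := by
    intro w hw
    refine Finset.sum_nonneg fun i hi => ?_
    rcases sig_or h5 hw hi with h | h <;> rw [h] <;> norm_num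
  have hfl : |∑ w ∈ Ω, F w * g (A w + 1) * D w / Mx I ε n w -
      ∑ w ∈ Ω, F w * g (A w) * U w / Mx I ε n w| ≤ (Ω.card : ℝ) * (δ + k / (ε * n)) :=
    flow hn hε hδ h1 h2 h4 h5 hF hF2 hg
  have hbd : ∀ w ∈ Ω, |1 - 2 * D w / Mx I ε n w| ≤ |S w| / (ε * n) + b w ∧
      |1 - 2 * U w / Mx I ε n w| ≤ |S w| / (ε * n) + b w := by
    intro w hw
    by_cases hc : ((I w).card : ℝ) < ε * n
    · have hb1 : b w = 1 := by rw [hb]; simp only []; rw [if_pos hc]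
      rw [hb1]
      have s0 : 0 ≤ |S w| / (ε * n) := by positivity
      have d1 : D w / Mx I ε n w ≤ 1 := by
        rw [div_le_one (hM w)]
        have := hDU w
        have := hU0 w hw
        have := hNM w
        linarith
      have u1 : U w / Mx I ε n w ≤ 1 := by
        rw [div_le_one (hM w)]
        have := hDU w
        have := hD0 w hw
        have := hNM w
        linarith
      have d0 : 0 ≤ D w / Mx I ε n w := div_nonneg (hD0 w hw) (hM w).le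
      have u0 : 0 ≤ U w / Mx I ε n w := div_nonneg (hU0 w hw) (hM w).le
      have ed : 2 * D w / Mx I ε n w = 2 * (D w / Mx I ε n w) := by ring
      have eu : 2 * U w / Mx I ε n w = 2 * (U w / Mx I ε n w) := by ring
      rw [ed, eu]
      constructor
      · rw [abs_le]; constructor <;> linarith
      · rw [abs_le]; constructor <;> linarith
    · have hb0 : b w = 0 := by rw [hb]; simp only []; rw [if_neg hc]
      rw [hb0, add_zero]
      rw [not_lt] at hc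
      have hMe : Mx I ε n w = (I w).card := max_eq_left hc
      have hMp := hM w
      have ed : 1 - 2 * D w / Mx I ε n w = - S w / Mx I ε n w := by
        rw [← hDS w, eq_div_iff hMp.ne', sub_mul, div_mul_cancel₀ _ hMp.ne', one_mul, hMe,
          ← hDU w]
        ring
      have eu : 1 - 2 * U w / Mx I ε n w = S w / Mx I ε n w := by
        rw [← hDS w, eq_div_iff hMp.ne', sub_mul, div_mul_cancel₀ _ hMp.ne', one_mul, hMe,
          ← hDU w]
        ring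
      have hle : |S w| / Mx I ε n w ≤ |S w| / (ε * n) :=
        div_le_div_of_nonneg_left (abs_nonneg _) hen (hM2 w)
      rw [ed, eu, abs_div, abs_div, abs_neg, abs_of_pos hMp]
      exact ⟨hle, hle⟩
  have hid : ∑ w ∈ Ω, F w * (g (A w + 1) - g (A w)) =
      2 * (∑ w ∈ Ω, F w * g (A w + 1) * D w / Mx I ε n w -
      ∑ w ∈ Ω, F w * g (A w) * U w / Mx I ε n w) +
      ∑ w ∈ Ω, (F w * g (A w + 1) * (1 - 2 * D w / Mx I ε n w) -
        F w * g (A w) * (1 - 2 * U w / Mx I ε n w)) := by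
    rw [← Finset.sum_sub_distrib, Finset.mul_sum, ← Finset.sum_add_distrib]
    refine Finset.sum_congr rfl fun w _ => ?_
    ring
  have hrest : |∑ w ∈ Ω, (F w * g (A w + 1) * (1 - 2 * D w / Mx I ε n w) -
        F w * g (A w) * (1 - 2 * U w / Mx I ε n w))| ≤
      2 * ((∑ w ∈ Ω, |S w|) / (ε * n)) + 2 * ∑ w ∈ Ω, b w := by
    have ht : ∀ w ∈ Ω, |F w * g (A w + 1) * (1 - 2 * D w / Mx I ε n w) -
        F w * g (A w) * (1 - 2 * U w / Mx I ε n w)| ≤ 2 * (|S w| / (ε * n)) + 2 * b w := by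
      intro w hw
      have f1 : |F w * g (A w + 1)| ≤ 1 := by
        rw [abs_mul]
        exact mul_le_one₀ (hF w hw) (abs_nonneg _) (hg _)
      have f2 : |F w * g (A w)| ≤ 1 := by
        rw [abs_mul]
        exact mul_le_one₀ (hF w hw) (abs_nonneg _) (hg _)
      obtain ⟨b1, b2⟩ := hbd w hw
      have c1 : |F w * g (A w + 1) * (1 - 2 * D w / Mx I ε n w)| ≤ |S w| / (ε * n) + b w := by
        rw [abs_mul]
        calc _ ≤ 1 * (|S w| / (ε * n) + b w) := mul_le_mul f1 b1 (abs_nonneg _) zero_le_one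
          _ = _ := one_mul _
      have c2 : |F w * g (A w) * (1 - 2 * U w / Mx I ε n w)| ≤ |S w| / (ε * n) + b w := by
        rw [abs_mul]
        calc _ ≤ 1 * (|S w| / (ε * n) + b w) := mul_le_mul f2 b2 (abs_nonneg _) zero_le_one
          _ = _ := one_mul _
      calc _ ≤ _ := abs_sub _ _
        _ ≤ (|S w| / (ε * n) + b w) + (|S w| / (ε * n) + b w) := add_le_add c1 c2
        _ = _ := by ring
    calc _ ≤ ∑ w ∈ Ω, (2 * (|S w| / (ε * n)) + 2 * b w) :=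
          (Finset.abs_sum_le_sum_abs _ _).trans (Finset.sum_le_sum ht)
      _ = _ := by
          rw [Finset.sum_add_distrib, ← Finset.mul_sum, ← Finset.mul_sum, Finset.sum_div]
  have hbs : ∑ w ∈ Ω, b w = ((Ω.filter (fun w => ((I w).card : ℝ) < ε * n)).card : ℝ) := by
    rw [hb, Finset.sum_boole]
  have hS1 : ∑ w ∈ Ω, |S w| ≤ (Ω.card : ℝ) * Real.sqrt (n * k) :=
    abs_sum h0 h1 h2 h4 h5 h6
  have hS2 : (∑ w ∈ Ω, |S w|) / (ε * n) ≤ (Ω.card : ℝ) * (Real.sqrt k / (ε * Real.sqrt n)) := by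
    rw [div_le_iff₀ hen]
    refine hS1.trans (le_of_eq ?_)
    have hsn : 0 < Real.sqrt n := Real.sqrt_pos.mpr hn'
    have hsq : Real.sqrt n ^ 2 = n := Real.sq_sqrt hn'.le
    rw [Real.sqrt_mul hn'.le]
    field_simp
    rw [hsq]
    ring
  rw [hbs] at hrest
  rw [hid]
  have hcard : (0 : ℝ) ≤ ((Ω.filter (fun w => ((I w).card : ℝ) < ε * n)).card : ℝ) :=
    Nat.cast_nonneg _
  calc _ ≤ |2 * (∑ w ∈ Ω, F w * g (A w + 1) * D w / Mx I ε n w -
      ∑ w ∈ Ω, F w * g (A w) * U w / Mx I ε n w)| +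
      |∑ w ∈ Ω, (F w * g (A w + 1) * (1 - 2 * D w / Mx I ε n w) -
        F w * g (A w) * (1 - 2 * U w / Mx I ε n w))| := abs_add_le _ _
    _ ≤ 2 * ((Ω.card : ℝ) * (δ + k / (ε * n))) +
        (2 * ((Ω.card : ℝ) * (Real.sqrt k / (ε * Real.sqrt n))) +
        2 * ((Ω.filter (fun w => ((I w).card : ℝ) < ε * n)).card : ℝ)) := by
        refine add_le_add ?_ (hrest.trans ?_)
        · rw [abs_mul, abs_of_pos (by norm_num : (0 : ℝ) < 2)]
          exact mul_le_mul_of_nonneg_left hfl (by norm_num)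
        · linarith
    _ ≤ _ := by
        have : (Ω.card : ℝ) * (2 * δ + 2 * k / (ε * n) + 2 * Real.sqrt k / (ε * Real.sqrt n)) =
          2 * ((Ω.card : ℝ) * (δ + k / (ε * n))) +
          2 * ((Ω.card : ℝ) * (Real.sqrt k / (ε * Real.sqrt n))) := by ring
        rw [this]
        linarith

end

end Pool.Agent.R54.AS.AbsAux
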