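import Pool.Agent.R54.AS.Stm
import Pool.Agent.R54.AS.AbsAux

/-!
# AS-ABS: the abstract smoothing lemma (project AS, MP_f6626d_co)
-/

set_option autoImplicit false

namespace Pool.Agent.R54.AS

open Finset
open scoped Classical

/-- AS-ABS -/
theorem absS : S_abs := by
  intro α Ω I s R A F g n k ε δ hn hε hδ h0 h1 h2 h4 h5 h6 hF hF2 hg
  exact AbsAux.main hn hε hδ h0 h1 h2 h4 h5 h6 hF hF2 hg

end Pool.Agent.R54.AS
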