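import Pool.Agent.R54.AS.Stm
import Pool.Agent.H976R2.KFew

/-!
# Words with few free corners are exponentially rare
-/

set_option autoImplicit false
set_option linter.unusedVariables false

namespace Pool.Agent.R54.AS

open Finset Pool.Agent.H976R2 Pool.Agent.H976R2.Lip Pool.Agent.H924P Pool.Agent.H739K
open scoped Classical

noncomputable section

namespace Grow

lemma vis_cons (r : Dir) (w : List Dir) (p : ℤ × ℤ) :
    vis (r :: w) p ↔ p = 0 ∨ vis w (p - dv r) := by
  constructor
  · rintro ⟨a, b, h, hX, hY⟩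
    cases a with
    | nil =>
      left
      ext
      · simpa using hX.symm
      · simpa using hY.symm
    | cons s a =>
      simp only [List.cons_append, List.cons.injEq] at h
      obtain ⟨rfl, h⟩ := h
      right
      refine ⟨a, b, h, ?_, ?_⟩
      · simp only [wX_cons, dv, Prod.fst_sub] at hX ⊢; linarith
      · simp only [wY_cons, dv, Prod.snd_sub] at hY ⊢; linarith
  · rintro (rfl | ⟨a, b, h, hX, hY⟩)
    · exact ⟨[], r :: w, rfl, rfl, rfl⟩
    · refine ⟨r :: a, b, by rw [h]; rfl, ?_, ?_⟩
      · simp only [wX_cons, dv, Prod.fst_sub] at hX ⊢; linarith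
      · simp only [wY_cons, dv, Prod.snd_sub] at hY ⊢; linarith

lemma vis_zero (w : List Dir) : vis w 0 := ⟨[], w, rfl, rfl, rfl⟩

lemma saw_cons (r : Dir) (w : List Dir) : Saw (r :: w) ↔ Saw w ∧ ¬ vis w (- dv r) := by
  constructor
  · intro h
    refine ⟨Saw.right (a := [r]) (by simpa using h), ?_⟩
    rintro ⟨a, b, hab, hX, hY⟩
    refine h [] (r :: a) b (by rw [hab]; rfl) (by simp) ⟨?_, ?_⟩
    · simp only [wX_cons, dv, Prod.fst_neg] at hX ⊢; linarith
    · simp only [wY_cons, dv, Prod.snd_neg] at hY ⊢; linarith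
  · rintro ⟨h, hv⟩ a b c habc hb hcon
    cases a with
    | nil =>
      cases b with
      | nil => exact hb rfl
      | cons s b =>
        simp only [List.nil_append, List.cons_append, List.cons.injEq] at habc
        obtain ⟨rfl, habc⟩ := habc
        apply hv
        refine ⟨b, c, habc, ?_, ?_⟩
        · have := hcon.1
          simp only [wX_cons, dv, Prod.fst_neg] at this ⊢; linarith
        · have := hcon.2
          simp only [wY_cons, dv, Prod.snd_neg] at this ⊢; linarith
    | cons s a =>
      simp only [List.cons_append, List.cons.injEq] at habc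
      exact h a b c habc.2 hb hcon

lemma lt_zero (r : Dir) (w : List Dir) : lt (r :: w) 0 = r := by simp [lt]
lemma lt_succ (r : Dir) (w : List Dir) (i : ℕ) : lt (r :: w) (i + 1) = lt w i := by simp [lt]

lemma PP_zero (w : List Dir) : PP w 0 = 0 := by unfold PP; simp

lemma PP_cons (r : Dir) (w : List Dir) (k : ℕ) : PP (r :: w) (k + 1) = dv r + PP w k := by
  unfold PP dv
  simp

lemma fv_zero (r : Dir) (w : List Dir) : fv (r :: w) 0 = dv (lt w 0) := by
  unfold fv
  rw [PP_zero, zero_add, lt_succ]

lemma fv_cons (r : Dir) (w : List Dir) (i : ℕ) : fv (r :: w) (i + 1) = dv r + fv w i := by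
  unfold fv
  rw [PP_cons, lt_succ, add_assoc]

lemma dv_ne (r : Dir) : dv r ≠ 0 := by
  intro h
  have h1 := congrArg Prod.fst h
  have h2 := congrArg Prod.snd h
  cases r <;> simp [dv, dx, dy] at h1 h2

/-- corners whose fourth vertex is the start or not visited -/
def f1 (w : List Dir) : Finset ℕ := (range w.length).filter
  (fun i => i + 1 < w.length ∧ perp (lt w i) (lt w (i + 1)) ∧ (fv w i = 0 ∨ ¬ vis w (fv w i)))

/-- corners whose fourth vertex is the start -/
def kk (w : List Dir) : Finset ℕ := (range w.length).filter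
  (fun i => i + 1 < w.length ∧ perp (lt w i) (lt w (i + 1)) ∧ fv w i = 0)

lemma f1_card (w : List Dir) : (f1 w).card = (fc w).card + (kk w).card := by
  have h : f1 w = fc w ∪ kk w := by
    ext i
    simp only [f1, fc, kk, mem_union, mem_filter]
    tauto
  rw [h, Finset.card_union_of_disjoint]
  rw [Finset.disjoint_left]
  intro i hi hk
  simp only [fc, kk, mem_filter] at hi hk
  apply hi.2.2.2
  rw [hk.2.2.2]
  exact vis_zero w

lemma f1_cons (r : Dir) (w : List Dir) (hw : 1 ≤ w.length) (hs : Saw (r :: w)) :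
    (f1 (r :: w)).card = (fc w).card +
      if perp r (lt w 0) ∧ ¬ vis w (dv (lt w 0) - dv r) then 1 else 0 := by
  obtain ⟨hs1, hs2⟩ := (saw_cons r w).mp hs
  unfold f1 fc
  rw [Finset.card_filter, Finset.card_filter, List.length_cons, Finset.sum_range_succ']
  congr 1
  · apply Finset.sum_congr rfl
    intro i _
    apply if_congr _ rfl rfl
    rw [lt_succ, lt_succ, fv_cons, vis_cons]
    have h1 : dv r + fv w i - dv r = fv w i := by abel
    rw [h1]
    constructor
    · rintro ⟨h2, h3, h4⟩
      refine ⟨by omega, h3, ?_⟩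
      rcases h4 with h4 | h4
      · have : fv w i = - dv r := by
          rw [eq_neg_iff_add_eq_zero, add_comm]; exact h4
        rw [this]; exact hs2
      · tauto
    · rintro ⟨h2, h3, h4⟩
      refine ⟨by omega, h3, ?_⟩
      tauto
  · apply if_congr _ rfl rfl
    rw [lt_zero, lt_succ, fv_zero, vis_cons]
    have := dv_ne (lt w 0)
    constructor
    · rintro ⟨h2, h3, h4⟩
      tauto
    · rintro ⟨h3, h4⟩
      refine ⟨by omega, h3, ?_⟩
      tauto

/-- rotation -/
def rot : Dir → Dir
  | Dir.E => Dir.N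
  | Dir.N => Dir.W
  | Dir.W => Dir.S
  | Dir.S => Dir.E

lemma dv_opp (e : Dir) : dv (opp e) = - dv e := by
  unfold dv
  rw [dx_opp, dy_opp]
  rfl

lemma opp_opp (e : Dir) : opp (opp e) = e := by cases e <;> rfl

lemma perp_rot (t : Dir) : perp t (rot t) := by cases t <;> decide
lemma perp_rot' (t : Dir) : perp t (opp (rot t)) := by cases t <;> decide

lemma sum_dir (F : Dir → ℝ) (t : Dir) :
    ∑ r : Dir, F r = F t + F (opp t) + F (opp (rot t)) + F (opp (opp (rot t))) := by
  have h : ∑ r : Dir, F r = F Dir.E + F Dir.W + F Dir.N + F Dir.S := by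
    have hu : (univ : Finset Dir) = {Dir.E, Dir.W, Dir.N, Dir.S} := rfl
    rw [hu, Finset.sum_insert (by decide), Finset.sum_insert (by decide),
      Finset.sum_insert (by decide), Finset.sum_singleton]
    ring
  rw [h]
  cases t <;> simp only [opp, rot] <;> ring

lemma PP_one (w : List Dir) (h : 1 ≤ w.length) : PP w 1 = dv (lt w 0) := by
  rw [PP_succ w 0 (by omega), PP_zero, zero_add]

lemma PP_two (w : List Dir) (h : 2 ≤ w.length) : PP w 2 = dv (lt w 0) + dv (lt w 1) := by
  rw [PP_succ w 1 (by omega), PP_one w (by omega)]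

lemma visPP (w : List Dir) (j : ℕ) : vis w (PP w j) :=
  ⟨w.take j, w.drop j, (List.take_append_drop j w).symm, rfl, rfl⟩

lemma kk_le (w : List Dir) (hs : Saw w) (hl : 3 ≤ w.length) :
    (kk w).card ≤ (if perp (lt w 0) (lt w 1) ∧ lt w 2 = opp (lt w 0) then 1 else 0) +
      (if vis w (- dv (lt w 0)) ∧ vis w (dv (rot (lt w 0))) then 1 else 0) +
      (if vis w (- dv (lt w 0)) ∧ vis w (dv (opp (rot (lt w 0)))) then 1 else 0) := by
  set t := lt w 0 with ht
  set t' := lt w 1 with ht'
  let D1 : Finset (ℤ × ℤ) := if perp t t' ∧ lt w 2 = opp t then {dv t + dv t'} else ∅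
  let D2 : Finset (ℤ × ℤ) := if vis w (- dv t) ∧ vis w (dv (rot t)) then {- dv t + dv (rot t)} else ∅
  let D3 : Finset (ℤ × ℤ) := if vis w (- dv t) ∧ vis w (dv (opp (rot t))) then
    {- dv t + dv (opp (rot t))} else ∅
  have hmem : ∀ i ∈ kk w, PP w (i + 1) ∈ D1 ∪ D2 ∪ D3 := by
    intro i hi
    simp only [kk, mem_filter, mem_range] at hi
    obtain ⟨h1, h2, h3, h4⟩ := hi
    obtain ⟨a, ha⟩ : ∃ a, a = lt w i := ⟨_, rfl⟩
    obtain ⟨c, hc⟩ : ∃ c, c = lt w (i + 1) := ⟨_, rfl⟩
    rw [← ha, ← hc] at h3
    have hP0 : PP w i = - dv c := by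
      unfold fv at h4
      rw [← hc] at h4
      rw [eq_neg_iff_add_eq_zero]; exact h4
    have hP1 : PP w (i + 1) = - dv c + dv a := by
      rw [PP_succ w i (by omega), hP0, ← ha]
    have hP2 : PP w (i + 2) = dv a := by
      rw [PP_succ w (i + 1) (by omega), hP1, ← hc]; abel
    have v0 : vis w (- dv c) := by rw [← hP0]; exact visPP w i
    have v2 : vis w (dv a) := by rw [← hP2]; exact visPP w (i + 2)
    by_cases e1 : a = t
    · exfalso
      have : PP w (i + 2) = PP w 1 := by rw [hP2, PP_one w (by omega), e1]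
      have := PP_inj hs (by omega) (by omega) this
      omega
    by_cases e2 : c = opp t
    · have : PP w i = PP w 1 := by rw [hP0, PP_one w (by omega), e2, dv_opp, neg_neg]
      have hi1 := PP_inj hs (by omega) (by omega) this
      subst hi1
      have : D1 = {dv t + dv t'} := by
        apply if_pos
        refine ⟨?_, ?_⟩
        · rw [e2, ha] at h3
          rw [ht']
          revert h3
          generalize lt w 1 = x
          cases t <;> cases x <;> decide
        · rw [← e2, hc]
      rw [mem_union, mem_union]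
      left; left
      rw [this, mem_singleton, hP1, e2, dv_opp, neg_neg, ha]
    by_cases e3 : a = opp t
    · rw [e3, dv_opp] at v2
      by_cases e4 : c = opp (rot t)
      · have e5 : dv (rot t) = - dv c := by rw [e4, dv_opp, neg_neg]
        have : D2 = {- dv t + dv (rot t)} := if_pos ⟨v2, by rw [e5]; exact v0⟩
        rw [mem_union, mem_union]
        left; right
        rw [this, mem_singleton, hP1, e5, e3, dv_opp]; abel
      · have e4' : c = rot t := by
          revert h3 e2 e4
          rw [e3]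
          cases t <;> cases c <;> decide
        have e5 : dv (opp (rot t)) = - dv c := by rw [e4', dv_opp]
        have : D3 = {- dv t + dv (opp (rot t))} := if_pos ⟨v2, by rw [e5]; exact v0⟩
        rw [mem_union, mem_union]
        right
        rw [this, mem_singleton, hP1, e5, e3, dv_opp]; abel
    · have e4 : c = t := by
        revert h3 e1 e2 e3
        cases t <;> cases c <;> cases a <;> decide
      rw [e4] at v0
      by_cases e5 : a = rot t
      · have : D2 = {- dv t + dv (rot t)} := if_pos ⟨v0, by rw [← e5]; exact v2⟩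
        rw [mem_union, mem_union]
        left; right
        rw [this, mem_singleton, hP1, e4, e5]
      · have e5' : a = opp (rot t) := by
          revert h3 e1 e2 e3 e5
          rw [e4]
          cases t <;> cases a <;> decide
        have : D3 = {- dv t + dv (opp (rot t))} := if_pos ⟨v0, by rw [← e5']; exact v2⟩
        rw [mem_union, mem_union]
        right
        rw [this, mem_singleton, hP1, e4, e5']
  have hinj : Set.InjOn (fun i => PP w (i + 1)) (kk w : Set ℕ) := by
    intro i hi j hj hij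
    rw [Finset.mem_coe] at hi hj
    simp only [kk, mem_filter, mem_range] at hi hj
    have := PP_inj hs (by omega) (by omega) hij
    omega
  have h1 : (kk w).card ≤ (D1 ∪ D2 ∪ D3).card := Finset.card_le_card_of_injOn _ hmem hinj
  have h2 : (D1 ∪ D2 ∪ D3).card ≤ D1.card + D2.card + D3.card :=
    (Finset.card_union_le _ _).trans (Nat.add_le_add_right (Finset.card_union_le _ _) _)
  have c1 : D1.card ≤ if perp t t' ∧ lt w 2 = opp t then 1 else 0 := by
    simp only [D1]; split_ifs <;> simp
  have c2 : D2.card ≤ if vis w (- dv t) ∧ vis w (dv (rot t)) then 1 else 0 := by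
    simp only [D2]; split_ifs <;> simp
  have c3 : D3.card ≤ if vis w (- dv t) ∧ vis w (dv (opp (rot t))) then 1 else 0 := by
    simp only [D3]; split_ifs <;> simp
  omega

/-! ## The potential -/

def Vs : Bool → Bool → ℕ
  | false, false => 100
  | true, true => 105
  | _, _ => 103

def U : Bool → Bool → ℕ
  | false, false => 134
  | false, true => 136
  | true, false => 73
  | true, true => 75

def Vt (pb f b : Bool) : ℕ := (bif b then 2 else 1) * U pb f

def hh (f : Bool) : ℕ := bif f then 2 else 1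

lemma num_s : ∀ f1 f2 eS e1 e2 : Bool,
    50 * 2 ^ ((bif (eS && e1) then 1 else 0) + (bif (eS && e2) then 1 else 0)) *
      ((bif eS then 0 else 2 * Vs e1 e2) + (bif e1 then 0 else hh f1 * Vt f1 eS false) +
        (bif e2 then 0 else hh f2 * Vt f2 eS false)) ≤ 236 * Vs f1 f2 := by decide

lemma num_t : ∀ pb f2 b eS e2 : Bool,
    50 * 2 ^ ((bif b then 1 else 0) + (bif (eS && pb) then 1 else 0) +
      (bif (eS && e2) then 1 else 0)) *
      ((bif eS then 0 else 2 * Vs pb e2) + (bif pb then 0 else 2 * Vt true eS true) +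
        (bif e2 then 0 else hh f2 * Vt f2 eS false)) ≤ 236 * Vt pb f2 b := by decide

lemma Vs_comm (a b : Bool) : Vs a b = Vs b a := by cases a <;> cases b <;> rfl

/-- the local state of a word -/
def st (w : List Dir) : ℕ :=
  if lt w 1 = lt w 0 then
    Vs (decide (vis w (dv (lt w 0) + dv (rot (lt w 0)))))
      (decide (vis w (dv (lt w 0) + dv (opp (rot (lt w 0))))))
  else Vt (decide (vis w (dv (lt w 1)))) (decide (vis w (dv (lt w 0) + dv (opp (lt w 1)))))
    (decide (lt w 2 = opp (lt w 0)))

/-- the potential -/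
def B (w : List Dir) : ℝ := (1 / 2 : ℝ) ^ (f1 w).card * (st w : ℝ)

/-- contribution of a letter -/
def term (w : List Dir) (r : Dir) : ℝ := if Saw (r :: w) then B (r :: w) else 0

lemma term_straight (w : List Dir) (hs : Saw w) (hl : 3 ≤ w.length) :
    term w (lt w 0) = (1 / 2 : ℝ) ^ (fc w).card *
      ((bif decide (vis w (- dv (lt w 0))) then 0 else
        2 * Vs (decide (vis w (dv (rot (lt w 0))))) (decide (vis w (dv (opp (rot (lt w 0)))))) : ℕ) : ℝ) / 2 := by
  set t := lt w 0 with ht
  unfold term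
  by_cases hv : vis w (- dv t)
  · rw [if_neg (fun h => ((saw_cons t w).mp h).2 hv)]
    simp [hv]
  · have hs2 : Saw (t :: w) := (saw_cons t w).mpr ⟨hs, hv⟩
    rw [if_pos hs2]
    unfold B
    rw [f1_cons t w (by omega) hs2]
    have hp : ¬ perp t t := by cases t <;> decide
    rw [if_neg (fun h => hp (by rw [← ht] at h; exact h.1)), add_zero]
    have hst : st (t :: w) = Vs (decide (vis w (dv (rot t)))) (decide (vis w (dv (opp (rot t))))) := by
      unfold st
      rw [lt_zero, lt_succ, ← ht, if_pos rfl]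
      have key : ∀ y : Dir, perp t y → (vis (t :: w) (dv t + dv y) ↔ vis w (dv y)) := by
        intro y hy
        rw [vis_cons, add_sub_cancel_left]
        constructor
        · rintro (h | h)
          · exfalso
            have h1 := congrArg Prod.fst h
            have h2 := congrArg Prod.snd h
            revert hy h1 h2
            cases t <;> cases y <;> simp [perp, dv, dx, dy]
          · exact h
        · exact Or.inr
      simp only [key _ (perp_rot t), key _ (perp_rot' t)]
    rw [hst]
    simp only [hv, decide_false, cond_false]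
    push_cast
    ring

lemma term_back (w : List Dir) (hs : Saw w) (hl : 3 ≤ w.length) : term w (opp (lt w 0)) = 0 := by
  unfold term
  rw [if_neg]
  intro h
  apply ((saw_cons _ w).mp h).2
  rw [dv_opp, neg_neg, ← PP_one w (by omega)]
  exact visPP w 1

lemma term_turn (w : List Dir) (hs : Saw w) (hl : 3 ≤ w.length) (y : Dir)
    (hy : perp (lt w 0) y) :
    term w (opp y) = (1 / 2 : ℝ) ^ (fc w).card *
      ((bif decide (vis w (dv y)) then 0 else
        hh (decide (vis w (dv (lt w 0) + dv y))) *
        Vt (decide (vis w (dv (lt w 0) + dv y))) (decide (vis w (- dv (lt w 0))))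
          (decide (lt w 1 = y)) : ℕ) : ℝ) / 2 := by
  set t := lt w 0 with ht
  unfold term
  by_cases hv : vis w (dv y)
  · rw [if_neg (fun h => ((saw_cons _ w).mp h).2 (by rw [dv_opp, neg_neg]; exact hv))]
    simp [hv]
  · have hs2 : Saw (opp y :: w) := (saw_cons _ w).mpr ⟨hs, by rw [dv_opp, neg_neg]; exact hv⟩
    rw [if_pos hs2]
    unfold B
    rw [f1_cons _ w (by omega) hs2]
    have hp : perp (opp y) t := by revert hy; cases t <;> cases y <;> decide
    have hne : ¬ t = opp y := by intro h; rw [h] at hp; revert hp; cases y <;> decide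
    have e1 : dv (lt w 0) - dv (opp y) = dv t + dv y := by rw [dv_opp, sub_neg_eq_add]
    rw [e1]
    have hst : st (opp y :: w) = Vt (decide (vis w (dv t + dv y))) (decide (vis w (- dv t)))
        (decide (lt w 1 = y)) := by
      unfold st
      rw [lt_zero, lt_succ, lt_succ, ← ht, if_neg hne]
      have k1 : vis (opp y :: w) (dv t) ↔ vis w (dv t + dv y) := by
        rw [vis_cons, dv_opp, sub_neg_eq_add]
        have := dv_ne t
        tauto
      have k2 : vis (opp y :: w) (dv (opp y) + dv (opp t)) ↔ vis w (- dv t) := by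
        rw [vis_cons, add_sub_cancel_left, dv_opp t]
        constructor
        · rintro (h | h)
          · exfalso
            have h1 := congrArg Prod.fst h
            have h2 := congrArg Prod.snd h
            revert hy h1 h2
            cases t <;> cases y <;> simp [perp, dv, dx, dy, opp]
          · exact h
        · exact Or.inr
      simp only [k1, k2, opp_opp]
    rw [hst]
    by_cases hf : vis w (dv t + dv y)
    · rw [if_neg (fun h => h.2 hf), add_zero]
      simp only [hv, hf, decide_false, decide_true, cond_false, hh, cond_true]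
      push_cast
      ring
    · rw [if_pos ⟨hp, hf⟩]
      simp only [hv, hf, decide_false, cond_false, hh]
      push_cast
      ring

lemma combine (F K k T V : ℕ) (hK : K ≤ k) (h : 50 * 2 ^ k * T ≤ 236 * V) :
    (1 / 2 : ℝ) ^ F * (T : ℝ) / 2 ≤ 2.36 * ((1 / 2 : ℝ) ^ (F + K) * (V : ℝ)) := by
  have h1 : (50 * 2 ^ k * T : ℝ) ≤ 236 * V := by exact_mod_cast h
  have h2 : (1 / 2 : ℝ) ^ k ≤ (1 / 2 : ℝ) ^ K :=
    pow_le_pow_of_le_one (by norm_num) (by norm_num) hK
  have h3 : (1 / 2 : ℝ) ^ k * 2 ^ k = 1 := by rw [← mul_pow]; norm_num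
  have h4 : (T : ℝ) / 2 ≤ 2.36 * ((1 / 2 : ℝ) ^ k * V) := by
    have h5 : (1 / 2 : ℝ) ^ k * (50 * 2 ^ k * T) ≤ (1 / 2 : ℝ) ^ k * (236 * V) :=
      mul_le_mul_of_nonneg_left h1 (by positivity)
    have h6 : (1 / 2 : ℝ) ^ k * (50 * 2 ^ k * T) = 50 * T := by
      calc _ = 50 * T * ((1 / 2 : ℝ) ^ k * 2 ^ k) := by ring
        _ = _ := by rw [h3, mul_one]
    rw [h6] at h5
    linarith
  have hF : (0 : ℝ) ≤ (1 / 2 : ℝ) ^ F := by positivity
  calc (1 / 2 : ℝ) ^ F * (T : ℝ) / 2 = (1 / 2 : ℝ) ^ F * ((T : ℝ) / 2) := by ring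
    _ ≤ (1 / 2 : ℝ) ^ F * (2.36 * ((1 / 2 : ℝ) ^ k * V)) := mul_le_mul_of_nonneg_left h4 hF
    _ ≤ (1 / 2 : ℝ) ^ F * (2.36 * ((1 / 2 : ℝ) ^ K * V)) := by gcongr
    _ = _ := by rw [pow_add]; ring

theorem step (w : List Dir) (hs : Saw w) (hl : 3 ≤ w.length) :
    ∑ r : Dir, term w r ≤ 2.36 * B w := by
  rw [sum_dir _ (lt w 0), term_straight w hs hl, term_back w hs hl,
    term_turn w hs hl (rot (lt w 0)) (perp_rot _),
    term_turn w hs hl (opp (rot (lt w 0))) (perp_rot' _)]
  have hkk := kk_le w hs hl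
  unfold B
  rw [f1_card w]
  set t := lt w 0 with ht
  set t' := lt w 1 with ht'
  by_cases hstr : t' = t
  · -- straight
    have hst : st w = Vs (decide (vis w (dv t + dv (rot t)))) (decide (vis w (dv t + dv (opp (rot t))))) := by
      unfold st
      rw [← ht, ← ht', if_pos hstr]
    have n1 : ¬ t' = rot t := by rw [hstr]; cases t <;> decide
    have n2 : ¬ t' = opp (rot t) := by rw [hstr]; cases t <;> decide
    have n3 : ¬ (perp t t' ∧ lt w 2 = opp t) := by
      rintro ⟨h, _⟩; rw [hstr] at h; revert h; cases t <;> decide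
    rw [hst]
    have hnum := num_s (decide (vis w (dv t + dv (rot t)))) (decide (vis w (dv t + dv (opp (rot t)))))
      (decide (vis w (- dv t))) (decide (vis w (dv (rot t)))) (decide (vis w (dv (opp (rot t)))))
    rw [if_neg n3, zero_add] at hkk
    have hk2 : (kk w).card ≤ (bif (decide (vis w (- dv t)) && decide (vis w (dv (rot t)))) then 1 else 0) +
        (bif (decide (vis w (- dv t)) && decide (vis w (dv (opp (rot t))))) then 1 else 0) := by
      refine hkk.trans (le_of_eq ?_)
      by_cases g1 : vis w (- dv t) <;> by_cases g2 : vis w (dv (rot t)) <;>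
        by_cases g3 : vis w (dv (opp (rot t))) <;> simp [g1, g2, g3]
    have := combine (fc w).card _ _ _ _ hk2 hnum
    refine le_trans (le_of_eq ?_) this
    simp only [n1, n2, decide_false]
    push_cast
    ring
  · have hst : st w = Vt (decide (vis w (dv t'))) (decide (vis w (dv t + dv (opp t'))))
        (decide (lt w 2 = opp t)) := by
      unfold st
      rw [← ht, ← ht', if_neg hstr]
    have hvt : vis w (dv t + dv t') := by
      rw [ht, ht', ← PP_two w (by omega)]; exact visPP w 2
    have hnopp : ¬ t' = opp t := by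
      intro h
      have h2 : PP w 2 = PP w 0 := by
        rw [PP_two w (by omega), PP_zero, ← ht, ← ht', h, dv_opp]; abel
      have := PP_inj hs (by omega) (by omega) h2
      omega
    have hperp : perp t t' := by
      revert hstr hnopp
      generalize t = x
      generalize t' = y
      cases x <;> cases y <;> decide
    have hkb : (if perp t t' ∧ lt w 2 = opp t then 1 else 0) =
        (bif decide (lt w 2 = opp t) then 1 else 0) := by
      by_cases g : lt w 2 = opp t <;> simp [g, hperp]
    rw [hkb] at hkk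
    rw [hst]
    by_cases hr : t' = rot t
    · have hr2 : ¬ t' = opp (rot t) := by rw [hr]; cases t <;> decide
      have hnum := num_t (decide (vis w (dv t'))) (decide (vis w (dv t + dv (opp t'))))
        (decide (lt w 2 = opp t)) (decide (vis w (- dv t))) (decide (vis w (dv (opp t'))))
      have hk2 : (kk w).card ≤ (bif decide (lt w 2 = opp t) then 1 else 0) +
          (bif (decide (vis w (- dv t)) && decide (vis w (dv t'))) then 1 else 0) +
          (bif (decide (vis w (- dv t)) && decide (vis w (dv (opp t')))) then 1 else 0) := by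
        refine hkk.trans (le_of_eq ?_)
        rw [← hr]
        by_cases g1 : vis w (- dv t) <;> by_cases g2 : vis w (dv t') <;>
          by_cases g3 : vis w (dv (opp t')) <;> simp [g1, g2, g3]
      have := combine (fc w).card _ _ _ _ hk2 hnum
      refine le_trans (le_of_eq ?_) this
      rw [← hr]
      have g1 : ¬ t' = opp t' := by cases t' <;> decide
      simp only [g1, hvt, decide_false, decide_true, hh, cond_true]
      push_cast
      ring
    · have hr2 : t' = opp (rot t) := by
        revert hr hperp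
        generalize t = x
        generalize t' = y
        cases x <;> cases y <;> decide
      have hr3 : opp t' = rot t := by rw [hr2, opp_opp]
      have hnum := num_t (decide (vis w (dv t'))) (decide (vis w (dv t + dv (opp t'))))
        (decide (lt w 2 = opp t)) (decide (vis w (- dv t))) (decide (vis w (dv (opp t'))))
      have hk2 : (kk w).card ≤ (bif decide (lt w 2 = opp t) then 1 else 0) +
          (bif (decide (vis w (- dv t)) && decide (vis w (dv t'))) then 1 else 0) +
          (bif (decide (vis w (- dv t)) && decide (vis w (dv (opp t')))) then 1 else 0) := by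
        refine hkk.trans (le_of_eq ?_)
        rw [← hr2, ← hr3]
        by_cases g1 : vis w (- dv t) <;> by_cases g2 : vis w (dv t') <;>
          by_cases g3 : vis w (dv (opp t')) <;> simp [g1, g2, g3]
      have := combine (fc w).card _ _ _ _ hk2 hnum
      refine le_trans (le_of_eq ?_) this
      rw [← hr2, ← hr3, Vs_comm]
      have g1 : ¬ t' = opp t' := by cases t' <;> decide
      simp only [g1, hvt, decide_false, decide_true, hh, cond_true]
      push_cast
      ring

lemma B_nonneg (w : List Dir) : 0 ≤ B w := by unfold B; positivity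

lemma sum_succ (n : ℕ) : ∑ w ∈ SW (n + 1), B w = ∑ w ∈ SW n, ∑ r : Dir, term w r := by
  unfold SW
  rw [Finset.sum_filter, Pool.Agent.H976R2.Few.KFewAux.sum_wordsN_succ n, Finset.sum_comm,
    Finset.sum_filter]
  apply Finset.sum_congr rfl
  intro w _
  by_cases hw : Saw w
  · rw [if_pos hw]
    rfl
  · rw [if_neg hw]
    apply Finset.sum_eq_zero
    intro r _
    rw [if_neg]
    intro h
    exact hw ((saw_cons r w).mp h).1

lemma iter (n : ℕ) : ∑ w ∈ SW (n + 3), B w ≤ 2.36 ^ n * ∑ w ∈ SW 3, B w := by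
  induction n with
  | zero => simp
  | succ n ih =>
    rw [show n + 1 + 3 = (n + 3) + 1 by ring, sum_succ]
    calc ∑ w ∈ SW (n + 3), ∑ r : Dir, term w r ≤ ∑ w ∈ SW (n + 3), 2.36 * B w := by
          apply Finset.sum_le_sum
          intro w hw
          obtain ⟨hl, hs⟩ := mem_SW.mp hw
          exact step w hs (by omega)
      _ = 2.36 * ∑ w ∈ SW (n + 3), B w := by rw [Finset.mul_sum]
      _ ≤ 2.36 * (2.36 ^ n * ∑ w ∈ SW 3, B w) := mul_le_mul_of_nonneg_left ih (by norm_num)
      _ = _ := by rw [pow_succ]; ring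

lemma Vs_ge : ∀ a b : Bool, 8 ≤ Vs a b := by decide
lemma Vt_ge : ∀ a b c : Bool, 8 ≤ Vt a b c := by decide

lemma le_B (w : List Dir) (hs : Saw w) (hl : 3 ≤ w.length) : (1 / 2 : ℝ) ^ (fc w).card ≤ B w := by
  have h1 : (kk w).card ≤ 3 := by
    have := kk_le w hs hl
    split_ifs at this <;> omega
  have h2 : 8 ≤ st w := by
    unfold st
    split_ifs
    · exact Vs_ge _ _
    · exact Vt_ge _ _ _
  have h3 : (1 / 2 : ℝ) ^ 3 ≤ (1 / 2 : ℝ) ^ (kk w).card :=
    pow_le_pow_of_le_one (by norm_num) (by norm_num) h1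
  have h4 : (8 : ℝ) ≤ st w := by exact_mod_cast h2
  unfold B
  rw [f1_card, pow_add, mul_assoc]
  have h5 : (1 : ℝ) ≤ (1 / 2 : ℝ) ^ (kk w).card * st w := by
    calc (1 : ℝ) = (1 / 2 : ℝ) ^ 3 * 8 := by norm_num
      _ ≤ _ := mul_le_mul h3 h4 (by norm_num) (by positivity)
  exact le_mul_of_one_le_right (by positivity) h5

end Grow

open Grow in
/-- the sum of `2 ^ (-number of free corners)` grows at most like `2.36 ^ n` -/
theorem grow : S_grow := by
  refine ⟨∑ m ∈ range 3, (∑ w ∈ SW m, (1 / 2 : ℝ) ^ (fc w).card) + ∑ w ∈ SW 3, B w, fun n => ?_⟩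
  have h0 : ∀ m, 0 ≤ ∑ w ∈ SW m, (1 / 2 : ℝ) ^ (fc w).card := fun m =>
    Finset.sum_nonneg (fun w _ => by positivity)
  have h1 : 0 ≤ ∑ w ∈ SW 3, B w := Finset.sum_nonneg (fun w _ => B_nonneg w)
  have h2 : 0 ≤ ∑ m ∈ range 3, (∑ w ∈ SW m, (1 / 2 : ℝ) ^ (fc w).card) :=
    Finset.sum_nonneg (fun m _ => h0 m)
  by_cases hn : n < 3
  · have h3 : ∑ w ∈ SW n, (1 / 2 : ℝ) ^ (fc w).card ≤
        ∑ m ∈ range 3, (∑ w ∈ SW m, (1 / 2 : ℝ) ^ (fc w).card) :=
      Finset.single_le_sum (f := fun m => ∑ w ∈ SW m, (1 / 2 : ℝ) ^ (fc w).card)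
        (fun m _ => h0 m) (mem_range.mpr hn)
    have h4 : (1 : ℝ) ≤ 2.36 ^ n := one_le_pow₀ (by norm_num)
    calc _ ≤ _ := h3
      _ ≤ ∑ m ∈ range 3, (∑ w ∈ SW m, (1 / 2 : ℝ) ^ (fc w).card) + ∑ w ∈ SW 3, B w := by linarith
      _ ≤ _ := le_mul_of_one_le_right (by linarith) h4
  · obtain ⟨k, rfl⟩ : ∃ k, n = k + 3 := ⟨n - 3, by omega⟩
    calc ∑ w ∈ SW (k + 3), (1 / 2 : ℝ) ^ (fc w).card ≤ ∑ w ∈ SW (k + 3), B w := by
          apply Finset.sum_le_sum
          intro w hw
          obtain ⟨hl, hs⟩ := mem_SW.mp hw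
          exact le_B w hs (by omega)
      _ ≤ 2.36 ^ k * ∑ w ∈ SW 3, B w := iter k
      _ ≤ 2.36 ^ (k + 3) * (∑ m ∈ range 3, (∑ w ∈ SW m, (1 / 2 : ℝ) ^ (fc w).card) + ∑ w ∈ SW 3, B w) := by
          apply mul_le_mul _ (by linarith) h1 (by positivity)
          exact pow_le_pow_right₀ (by norm_num) (by omega)
      _ = _ := by ring

/-- the walks with fewer than `n / 50` free corners -/
def fewc (n : ℕ) : Finset (List Dir) := (SW n).filter (fun w => ((fc w).card : ℝ) < n / 50)

theorem fewc_card : ∃ C : ℝ, 0 < C ∧ ∀ n : ℕ, ((fewc n).card : ℝ) ≤ C * 2.4 ^ n := by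
  obtain ⟨C, hC⟩ := grow
  refine ⟨|C| + 1, by positivity, fun n => ?_⟩
  have hK : (2 : ℝ) ≤ (2.4 / 2.36 : ℝ) ^ 50 := by norm_num
  have h1 : ∀ w ∈ fewc n, (1 : ℝ) ≤ (2.4 / 2.36 : ℝ) ^ n * (1 / 2 : ℝ) ^ (fc w).card := by
    intro w hw
    have h2 : 50 * (fc w).card ≤ n := by
      have h3 := (Finset.mem_filter.mp hw).2
      rw [lt_div_iff₀ (by norm_num)] at h3
      have h4 : (50 * (fc w).card : ℝ) < n := by linarith
      have h5 : 50 * (fc w).card < n := by exact_mod_cast h4
      omega
    have h3 : (2 : ℝ) ^ (fc w).card ≤ (2.4 / 2.36 : ℝ) ^ n := by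
      calc (2 : ℝ) ^ (fc w).card ≤ ((2.4 / 2.36 : ℝ) ^ 50) ^ (fc w).card :=
            pow_le_pow_left₀ (by norm_num) hK _
        _ = (2.4 / 2.36 : ℝ) ^ (50 * (fc w).card) := by rw [pow_mul]
        _ ≤ _ := pow_le_pow_right₀ (by norm_num) h2
    calc (1 : ℝ) = (2 : ℝ) ^ (fc w).card * (1 / 2 : ℝ) ^ (fc w).card := by
          rw [← mul_pow]; norm_num
      _ ≤ _ := mul_le_mul_of_nonneg_right h3 (by positivity)
  calc ((fewc n).card : ℝ) = ∑ w ∈ fewc n, (1 : ℝ) := by simp
    _ ≤ ∑ w ∈ fewc n, (2.4 / 2.36 : ℝ) ^ n * (1 / 2 : ℝ) ^ (fc w).card := Finset.sum_le_sum h1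
    _ ≤ ∑ w ∈ SW n, (2.4 / 2.36 : ℝ) ^ n * (1 / 2 : ℝ) ^ (fc w).card :=
        Finset.sum_le_sum_of_subset_of_nonneg (Finset.filter_subset _ _) (fun _ _ _ => by positivity)
    _ = (2.4 / 2.36 : ℝ) ^ n * ∑ w ∈ SW n, (1 / 2 : ℝ) ^ (fc w).card := by rw [Finset.mul_sum]
    _ ≤ (2.4 / 2.36 : ℝ) ^ n * (C * 2.36 ^ n) := mul_le_mul_of_nonneg_left (hC n) (by positivity)
    _ = C * 2.4 ^ n := by rw [div_pow]; field_simp
    _ ≤ (|C| + 1) * 2.4 ^ n := by
        apply mul_le_mul_of_nonneg_right _ (by positivity)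
        linarith [le_abs_self C]

end

end Pool.Agent.R54.AS
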