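import Pool.Agent.H739K.AREA
import Pool.Agent.H739K.HOR
import Pool.Agent.H739K.CONV

/-!
# Corner flips of self-avoiding words: definitions and statements (project AS, MP_f6626d_co)

A *corner* `i` of a word is a pair of orthogonal letters number `i`, `i + 1`; it is *free* if the
fourth vertex of the unit square spanned by the two edges is not visited.  The flip of a free corner
exchanges the two letters.
-/

set_option autoImplicit false

namespace Pool.Agent.R54.AS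

open Finset Pool.Agent.H976R2 Pool.Agent.H976R2.Lip Pool.Agent.H924P Pool.Agent.H739K
open scoped Classical

noncomputable section

/-- exchange the letters number `i` and `i + 1` -/
def sw (w : List Dir) (i : ℕ) : List Dir :=
  w.take i ++ lt w (i + 1) :: lt w i :: w.drop (i + 2)

/-- the fourth vertex of the square of the corner `i` -/
def fv (w : List Dir) (i : ℕ) : ℤ × ℤ := PP w i + dv (lt w (i + 1))

/-- the free corners of a word -/
def fc (w : List Dir) : Finset ℕ := (range w.length).filter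
  (fun i => i + 1 < w.length ∧ perp (lt w i) (lt w (i + 1)) ∧ ¬ vis w (fv w i))

/-- the free corners which are near to the corner `i` -/
def nr (w : List Dir) (i : ℕ) : Finset ℕ :=
  (fc w).filter (fun j => (i ≤ j + 1 ∧ j ≤ i + 1) ∨ fv w j = fv w i)

/-- change of the area -/
def sg (w : List Dir) (i : ℕ) : ℤ := (ar (sw w i) : ℤ) - ar w

/-- AS-FLIP: the flips of free corners -/
def S_flip : Prop := ∀ w : List Dir, Saw w → ∀ i ∈ fc w,
  (sw w i).length = w.length ∧ Saw (sw w i) ∧ sq (sw w i) = sq w ∧ i ∈ fc (sw w i) ∧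
  sw (sw w i) i = w ∧ (∀ j : ℕ, j ≠ i + 1 → PP (sw w i) j = PP w j) ∧
  i ∈ nr w i ∧ nr w i ⊆ fc w ∧ (nr w i).card ≤ 7 ∧
  ∀ j ∈ fc w, j ∉ nr w i → j ∈ fc (sw w i) ∧ j ∉ nr (sw w i) i

/-- AS-AREA: a flip changes the area by one, and flips of far corners do not interact -/
def S_ar : Prop := ∀ w : List Dir, 3 ≤ w.length → Saw w → sq w = 1 → ∀ i ∈ fc w,
  (sg w i = 1 ∨ sg w i = -1) ∧ ∀ j ∈ fc w, j ∉ nr w i → sg (sw w i) j = sg w j

/-- AS-ABS: the abstract smoothing lemma -/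
def S_abs : Prop := ∀ (α : Type) (Ω : Finset α) (I : α → Finset ℕ) (s : α → ℕ → α)
  (R : α → ℕ → Finset ℕ) (A : α → ℤ) (F : α → ℝ) (g : ℤ → ℝ) (n k : ℕ) (ε δ : ℝ),
  1 ≤ n → 0 < ε → 0 ≤ δ →
  (∀ w ∈ Ω, (I w).card ≤ n) →
  (∀ w ∈ Ω, ∀ i ∈ I w, s w i ∈ Ω ∧ i ∈ I (s w i) ∧ s (s w i) i = w) →
  (∀ w ∈ Ω, ∀ i ∈ I w, i ∈ R w i ∧ R w i ⊆ I w ∧ (R w i).card ≤ k) →
  (∀ w ∈ Ω, ∀ i ∈ I w, ∀ j ∈ I w, j ∉ R w i → j ∈ I (s w i) ∧ j ∉ R (s w i) i) →
  (∀ w ∈ Ω, ∀ i ∈ I w, A (s w i) = A w + 1 ∨ A (s w i) = A w - 1) →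
  (∀ w ∈ Ω, ∀ i ∈ I w, ∀ j ∈ I w, j ∉ R w i → A (s (s w i) j) - A (s w i) = A (s w j) - A w) →
  (∀ w ∈ Ω, |F w| ≤ 1) → (∀ w ∈ Ω, ∀ i ∈ I w, |F (s w i) - F w| ≤ δ) → (∀ a, |g a| ≤ 1) →
  |∑ w ∈ Ω, F w * (g (A w + 1) - g (A w))| ≤
    (Ω.card : ℝ) * (2 * δ + 2 * k / (ε * n) + 2 * Real.sqrt k / (ε * Real.sqrt n)) +
      4 * ((Ω.filter (fun w => ((I w).card : ℝ) < ε * n)).card : ℝ)

/-- AS-GROW: words with few free corners are exponentially rare -/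
def S_grow : Prop := ∃ C : ℝ, ∀ n : ℕ, ∑ w ∈ SW n, (1 / 2 : ℝ) ^ (fc w).card ≤ C * 2.36 ^ n

end

end Pool.Agent.R54.AS
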